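import Pool.Agent.Hall.Disk2

/-!
# The comparison of the square and the disk
-/

set_option autoImplicit false

namespace Pool.Agent.Hall

open MeasureTheory Real Set Filter Topology
open scoped ENNReal

/-- the radius of the neighbourhoods of the two equilateral shapes -/
noncomputable def eps : ℝ := 1 / 100000

lemma consts : (π - 9 * √3 / 8 + 360 * π * eps) / π ^ 2 <
    ((1 + 2 * eps) ^ 4)⁻¹ * (89 / 10 - 76 * √3 / 15) := by
  have hp1 : 3.14159 < π := by linarith [pi_gt_d6]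
  have hp2 : π < 3.1416 := by linarith [pi_lt_d4]
  have hs1 : (1.73205 : ℝ) < √3 := by
    rw [show (1.73205 : ℝ) = √(1.73205 ^ 2) by rw [sqrt_sq (by norm_num)]]
    exact sqrt_lt_sqrt (by norm_num) (by norm_num)
  have hs2 : √3 < (1.73206 : ℝ) := by
    rw [show (1.73206 : ℝ) = √(1.73206 ^ 2) by rw [sqrt_sq (by norm_num)]]
    exact sqrt_lt_sqrt (by norm_num) (by norm_num)
  have hpi := pi_pos
  have h1 : (π - 9 * √3 / 8 + 360 * π * eps) / π ^ 2 < 0.1225 := by
    rw [div_lt_iff₀ (by positivity)]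
    unfold eps
    have : π ^ 2 > 3.14159 ^ 2 := pow_lt_pow_left₀ hp1 (by norm_num) (by norm_num)
    nlinarith
  have h2 : 0.1225 < ((1 + 2 * eps) ^ 4)⁻¹ * (89 / 10 - 76 * √3 / 15) := by
    have h3 : 0.999 ≤ ((1 + 2 * eps) ^ 4)⁻¹ := by
      unfold eps; norm_num
    have h4 : (0.124 : ℝ) < 89 / 10 - 76 * √3 / 15 := by linarith
    nlinarith
  exact h1.trans h2

lemma K_fin {φ : ℝ} (hK : K φ ⊆ {w | ‖w - w0‖ < eps ∨ ‖w - w1‖ < eps}) : volume (K φ) < ∞ := by
  have : K φ ⊆ Metric.ball w0 eps ∪ Metric.ball w1 eps := by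
    intro w hw
    rcases hK hw with h | h
    · left; rw [Metric.mem_ball, dist_eq_norm]; exact h
    · right; rw [Metric.mem_ball, dist_eq_norm]; exact h
  refine (measure_mono this).trans_lt ((measure_union_le _ _).trans_lt ?_)
  exact ENNReal.add_lt_top.2 ⟨measure_ball_lt_top, measure_ball_lt_top⟩

lemma K_pos {φ : ℝ} (h : π / 3 < φ) : 0 < volume (K φ) :=
  Measure.measure_pos_of_mem_nhds volume (K_nhds h)

/-- The comparison for a single angle. -/
lemma compare {φ : ℝ} (h : π / 3 < φ) (hK : K φ ⊆ {w | ‖w - w0‖ < eps ∨ ‖w - w1‖ < eps}) :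
    (volume (E φ D)).toReal / π ^ 3 < (volume (E φ Q)).toReal := by
  have hpi := pi_pos
  have hk0 := K_pos h
  have hk1 := K_fin hK
  set k := (volume (K φ)).toReal with hk
  have hkpos : 0 < k := ENNReal.toReal_pos hk0.ne' hk1.ne
  have hkk : volume (K φ) = ENNReal.ofReal k := (ENNReal.ofReal_toReal hk1.ne).symm
  have heps : eps ≤ 1 / 10 := by unfold eps; norm_num
  have heps0 : 0 < eps := by unfold eps; norm_num
  set c1 := π - 9 * √3 / 8 + 360 * π * eps with hc1
  set c2 := ((1 + 2 * eps) ^ 4)⁻¹ * (89 / 10 - 76 * √3 / 15) with hc2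
  have hcc : c1 / π ^ 2 < c2 := consts
  have hs2 : √3 < (1.73206 : ℝ) := by
    rw [show (1.73206 : ℝ) = √(1.73206 ^ 2) by rw [sqrt_sq (by norm_num)]]
    exact sqrt_lt_sqrt (by norm_num) (by norm_num)
  have hc1pos : 0 < c1 := by
    have : 0 < 360 * π * eps := by positivity
    linarith [pi_gt_three]
  have hc2pos : 0 < c2 := lt_trans (by positivity) hcc
  -- the disk
  have hD : volume (E φ D) ≤ ENNReal.ofReal (π * c1 * k) := by
    refine (vol_disk φ).trans ?_
    have : ∫⁻ w, ind (w ∈ K φ) * Cd w ≤ ∫⁻ w, ind (w ∈ K φ) * ENNReal.ofReal c1 := by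
      apply lintegral_mono
      intro w
      simp only
      by_cases hw : w ∈ K φ
      · exact mul_le_mul' le_rfl (Cd_le heps (hK hw))
      · rw [ind_false hw]; simp
    refine (mul_le_mul' le_rfl this).trans ?_
    rw [lintegral_mul_const _ (ind_meas (K_meas φ)), lintegral_ind _ (K_meas φ), hkk,
      ← ENNReal.ofReal_mul hkpos.le, ← ENNReal.ofReal_mul hpi.le]
    apply ENNReal.ofReal_le_ofReal
    apply le_of_eq; ring
  -- the square
  have hQ : ENNReal.ofReal (c2 * k) ≤ volume (E φ Q) := by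
    rw [vol_E φ Q_meas]
    have : ∫⁻ w, ind (w ∈ K φ) * ENNReal.ofReal c2 ≤ ∫⁻ w, ind (w ∈ K φ) * Phi Q w := by
      apply lintegral_mono
      intro w
      simp only
      by_cases hw : w ∈ K φ
      · exact mul_le_mul' le_rfl (Phi_ge (hK hw))
      · rw [ind_false hw]; simp
    refine le_trans (le_of_eq ?_) this
    rw [lintegral_mul_const _ (ind_meas (K_meas φ)), lintegral_ind _ (K_meas φ), hkk,
      ← ENNReal.ofReal_mul hkpos.le]
    congr 1; ring
  have hQfin : volume (E φ Q) ≠ ∞ := by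
    have hsub : E φ Q ⊆ Q ×ˢ (Q ×ˢ Q) := fun p hp => ⟨hp.1, hp.2.1, hp.2.2.1⟩
    have : volume (Q ×ˢ (Q ×ˢ Q)) = 1 := by
      rw [Measure.volume_eq_prod, Measure.prod_prod, Measure.volume_eq_prod, Measure.prod_prod,
        Q_vol]
      simp
    exact ((measure_mono hsub).trans_lt (by rw [this]; exact ENNReal.one_lt_top)).ne
  have r1 : (volume (E φ D)).toReal ≤ π * c1 * k := by
    have := ENNReal.toReal_mono ENNReal.ofReal_ne_top hD
    rwa [ENNReal.toReal_ofReal (by positivity)] at this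
  have r2 : c2 * k ≤ (volume (E φ Q)).toReal := by
    have := ENNReal.toReal_mono hQfin hQ
    rwa [ENNReal.toReal_ofReal (by positivity)] at this
  calc (volume (E φ D)).toReal / π ^ 3 ≤ (π * c1 * k) / π ^ 3 := by gcongr
    _ = c1 / π ^ 2 * k := by field_simp
    _ < c2 * k := mul_lt_mul_of_pos_right hcc hkpos
    _ ≤ _ := r2

/-- The comparison for all angles slightly larger than `π/3`. -/
lemma compare_eventually : ∃ φ₀ : ℝ, π / 3 < φ₀ ∧ ∀ φ ∈ Ioo (π / 3) φ₀,
    (volume (E φ D)).toReal / π ^ 3 < (volume (E φ Q)).toReal := by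
  have hpi := pi_pos
  have heps0 : 0 < eps := by unfold eps; norm_num
  have hcont : Tendsto (fun φ => 1 / 2 - cos φ) (𝓝 (π / 3)) (𝓝 0) := by
    have : Continuous fun φ => 1 / 2 - cos φ := by fun_prop
    have h := this.tendsto (π / 3)
    rwa [cos_pi_div_three, sub_self] at h
  have e1 : ∀ᶠ φ in 𝓝 (π / 3), 1 / 2 - cos φ < eps ^ 2 / 60 :=
    hcont.eventually_lt_const (by positivity)
  have e2 : ∀ᶠ φ in 𝓝 (π / 3), 1 / 2 - cos φ < 1 / 10 :=
    hcont.eventually_lt_const (by norm_num)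
  have e3 : ∀ᶠ φ in 𝓝 (π / 3), φ < π / 2 := gt_mem_nhds (by linarith)
  obtain ⟨δ, hδ, hball⟩ := Metric.eventually_nhds_iff.1 (e1.and (e2.and e3))
  refine ⟨π / 3 + δ, by linarith, ?_⟩
  intro φ hφ
  have hd : dist φ (π / 3) < δ := by
    rw [Real.dist_eq, abs_of_pos (by linarith [hφ.1])]
    linarith [hφ.2]
  obtain ⟨h1, h2, h3⟩ := hball hd
  exact compare hφ.1 fun w hw => K_small heps0 hφ.1 h3 h1 h2 hw

end Pool.Agent.Hall
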