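import Pool.Agent.Hall.Shape

/-!
# Changes of variables in the complex plane
-/

set_option autoImplicit false

namespace Pool.Agent.Hall

open MeasureTheory Real Set Filter Topology
open scoped ENNReal

lemma map_mul_volume {h : ℂ} (hh : h ≠ 0) :
    Measure.map (fun w : ℂ => h * w) volume = ENNReal.ofReal ((‖h‖ ^ 2)⁻¹) • volume := by
  have hdet : LinearMap.det (Algebra.lmul ℝ ℂ h) = ‖h‖ ^ 2 := by
    rw [← Algebra.norm_apply, Algebra.norm_complex_apply, Complex.normSq_eq_norm_sq]
  have hpos : 0 < ‖h‖ ^ 2 := by positivity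
  have := Measure.map_linearMap_addHaar_eq_smul_addHaar (volume : Measure ℂ)
    (f := Algebra.lmul ℝ ℂ h) (by rw [hdet]; exact hpos.ne')
  rw [hdet, abs_of_pos (by positivity)] at this
  exact this

lemma lint_mul (x : ℂ) {h : ℂ} (hh : h ≠ 0) (f : ℂ → ℝ≥0∞) :
    ∫⁻ z, f z = ENNReal.ofReal (‖h‖ ^ 2) * ∫⁻ w, f (x + h * w) := by
  have e1 : ∫⁻ w, f (x + h * w) = ∫⁻ z, f (x + z) ∂(Measure.map (fun w : ℂ => h * w) volume) := by
    have hm : MeasurableEmbedding (fun w : ℂ => h * w) :=
      (Homeomorph.mulLeft₀ h hh).measurableEmbedding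
    rw [hm.lintegral_map]
  rw [e1, map_mul_volume hh, lintegral_smul_measure, lintegral_add_left_eq_self f x, smul_eq_mul,
    ← mul_assoc, ← ENNReal.ofReal_mul (by positivity), mul_inv_cancel₀ (by positivity)]
  simp

/-- the indicator of a proposition -/
noncomputable def ind (p : Prop) : ℝ≥0∞ := by classical exact if p then 1 else 0

lemma ind_true {p : Prop} (h : p) : ind p = 1 := by unfold ind; exact if_pos h
lemma ind_false {p : Prop} (h : ¬ p) : ind p = 0 := by unfold ind; exact if_neg h

lemma ind_congr {p q : Prop} (h : p ↔ q) : ind p = ind q := by rw [propext h]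

lemma ind_mono {p q : Prop} (h : p → q) : ind p ≤ ind q := by
  by_cases hp : p
  · rw [ind_true hp, ind_true (h hp)]
  · rw [ind_false hp]; exact zero_le

lemma ind_and (p q : Prop) : ind (p ∧ q) = ind p * ind q := by
  by_cases hp : p
  · by_cases hq : q
    · rw [ind_true hp, ind_true hq, ind_true ⟨hp, hq⟩, mul_one]
    · rw [ind_false hq, ind_false (fun h => hq h.2), mul_zero]
  · rw [ind_false hp, ind_false (fun h => hp h.1), zero_mul]

lemma ind_eq_indicator {α : Type*} (s : Set α) (x : α) : ind (x ∈ s) = s.indicator 1 x := by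
  by_cases hx : x ∈ s
  · rw [ind_true hx, indicator_of_mem hx]; rfl
  · rw [ind_false hx, indicator_of_notMem hx]

lemma ind_meas {α : Type*} [MeasurableSpace α] {s : Set α} (hs : MeasurableSet s) :
    Measurable fun x => ind (x ∈ s) := by
  simp only [ind_eq_indicator]
  exact measurable_one.indicator hs

lemma lintegral_ind {α : Type*} [MeasurableSpace α] (μ : Measure α) {s : Set α}
    (hs : MeasurableSet s) : ∫⁻ x, ind (x ∈ s) ∂μ = μ s := by
  simp only [ind_eq_indicator]
  exact lintegral_indicator_one hs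

/-- exchanging the order of three integrations -/
lemma swap3 {F : ℂ × ℂ × ℂ → ℝ≥0∞} (hF : Measurable F) :
    ∫⁻ x, ∫⁻ h, ∫⁻ w, F (x, h, w) = ∫⁻ w, ∫⁻ h, ∫⁻ x, F (x, h, w) := by
  have e1 : ∀ x, ∫⁻ h, ∫⁻ w, F (x, h, w) = ∫⁻ w, ∫⁻ h, F (x, h, w) := by
    intro x
    apply lintegral_lintegral_swap (f := fun h w => F (x, h, w))
    have : Measurable (fun p : ℂ × ℂ => F (x, p.1, p.2)) := hF.comp (by fun_prop)
    exact this.aemeasurable
  simp only [e1]
  have hm : Measurable (fun p : ℂ × ℂ => ∫⁻ h, F (p.1, h, p.2)) := by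
    have h1 : Measurable (fun q : (ℂ × ℂ) × ℂ => F (q.1.1, q.2, q.1.2)) := hF.comp (by fun_prop)
    exact h1.lintegral_prod_right'
  rw [lintegral_lintegral_swap (f := fun x w => ∫⁻ h, F (x, h, w)) hm.aemeasurable]
  congr 1
  ext w
  apply lintegral_lintegral_swap (f := fun x h => F (x, h, w))
  have : Measurable (fun p : ℂ × ℂ => F (p.1, p.2, w)) := hF.comp (by fun_prop)
  exact this.aemeasurable

/-- polar coordinates -/
lemma lint_polar (f : ℂ → ℝ≥0∞) (hf : Measurable f) :
    ∫⁻ z, f z = ∫⁻ θ in Ioo (-π) π, ∫⁻ r in Ioi (0 : ℝ),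
      ENNReal.ofReal r * f (r * (cos θ + sin θ * Complex.I)) := by
  rw [← Complex.lintegral_comp_polarCoord_symm]
  have : (volume : Measure (ℝ × ℝ)).restrict polarCoord.target =
      (volume.restrict (Ioi (0 : ℝ))).prod (volume.restrict (Ioo (-π) π)) := by
    rw [Measure.prod_restrict]; rfl
  rw [this, lintegral_prod_symm]
  · simp only [Complex.polarCoord_symm_apply, smul_eq_mul]
  · apply Measurable.aemeasurable
    simp only [Complex.polarCoord_symm_apply, smul_eq_mul]
    exact (by fun_prop : Measurable fun p : ℝ × ℝ => ENNReal.ofReal p.1).mul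
      (hf.comp (by fun_prop))

/-- the real integral is at most the lower integral of the positive part -/
lemma ofReal_int_le {α : Type*} [MeasurableSpace α] {μ : Measure α} {f : α → ℝ}
    (hf : Integrable f μ) : ENNReal.ofReal (∫ x, f x ∂μ) ≤ ∫⁻ x, ENNReal.ofReal (f x) ∂μ := by
  have h1 : ∫ x, f x ∂μ ≤ ∫ x, max (f x) 0 ∂μ :=
    integral_mono hf hf.pos_part (fun x => le_max_left _ _)
  refine (ENNReal.ofReal_le_ofReal h1).trans ?_
  rw [ofReal_integral_eq_lintegral_ofReal hf.pos_part
    (Eventually.of_forall fun x => le_max_right _ _)]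
  apply lintegral_mono
  intro x
  simp only
  rcases le_total (f x) 0 with h | h
  · rw [max_eq_right h]; simp
  · rw [max_eq_left h]

end Pool.Agent.Hall
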