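import Pool.Agent.Hall.Sq2

/-!
# Triangles in the unit disk
-/

set_option autoImplicit false

namespace Pool.Agent.Hall

open MeasureTheory Real Set Filter Topology
open scoped ENNReal

/-- the density of shapes, for triangles whose vertex farthest from the centre is `1` -/
noncomputable def Cd (w : ℂ) : ℝ≥0∞ :=
  ∫⁻ h, ENNReal.ofReal (‖h‖ ^ 2) * ind (‖1 + h‖ ≤ 1 ∧ ‖1 + h * w‖ ≤ 1)

lemma ang_swap1 {φ : ℝ} {x y z : ℂ} : Ang φ x y z ↔ Ang φ y x z := by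
  unfold Ang
  rw [InnerProductGeometry.angle_comm (x - z) (y - z)]
  tauto

lemma ang_swap2 {φ : ℝ} {x y z : ℂ} : Ang φ x y z ↔ Ang φ z y x := by
  unfold Ang
  rw [InnerProductGeometry.angle_comm (x - z) (y - z),
    InnerProductGeometry.angle_comm (x - y) (z - y),
    InnerProductGeometry.angle_comm (y - x) (z - x)]
  tauto

/-- the first vertex is the farthest one -/
def A1 (φ : ℝ) : Set (ℂ × ℂ × ℂ) :=
  {p | ‖p.1‖ ≤ 1 ∧ ‖p.2.1‖ ≤ ‖p.1‖ ∧ ‖p.2.2‖ ≤ ‖p.1‖ ∧ Ang φ p.1 p.2.1 p.2.2}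

lemma A1_meas (φ : ℝ) : MeasurableSet (A1 φ) := by
  unfold A1
  have h1 : MeasurableSet {p : ℂ × ℂ × ℂ | ‖p.1‖ ≤ 1} :=
    measurableSet_le (by fun_prop) (by fun_prop)
  have h2 : MeasurableSet {p : ℂ × ℂ × ℂ | ‖p.2.1‖ ≤ ‖p.1‖} :=
    measurableSet_le (by fun_prop) (by fun_prop)
  have h3 : MeasurableSet {p : ℂ × ℂ × ℂ | ‖p.2.2‖ ≤ ‖p.1‖} :=
    measurableSet_le (by fun_prop) (by fun_prop)
  exact h1.inter (h2.inter (h3.inter (ang_meas φ)))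

/-- the closed unit disk -/
abbrev D : Set ℂ := Metric.closedBall 0 1

lemma E_le (φ : ℝ) (x y z : ℂ) : ind ((x, y, z) ∈ E φ D) ≤
    ind ((x, y, z) ∈ A1 φ) + ind ((y, x, z) ∈ A1 φ) + ind ((z, y, x) ∈ A1 φ) := by
  by_cases h : (x, y, z) ∈ E φ D
  · obtain ⟨h1, h2, h3, h4⟩ := h
    simp only [D, Metric.mem_closedBall, dist_zero_right] at h1 h2 h3
    rw [ind_true (show (x, y, z) ∈ E φ D from ⟨by simpa using h1, by simpa using h2,
      by simpa using h3, h4⟩)]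
    by_cases a : ‖y‖ ≤ ‖x‖ ∧ ‖z‖ ≤ ‖x‖
    · rw [ind_true (show (x, y, z) ∈ A1 φ from ⟨h1, a.1, a.2, h4⟩), add_assoc]
      exact le_self_add
    by_cases b : ‖x‖ ≤ ‖y‖ ∧ ‖z‖ ≤ ‖y‖
    · rw [ind_true (show (y, x, z) ∈ A1 φ from ⟨h2, b.1, b.2, ang_swap1.1 h4⟩),
        add_comm (ind _) 1, add_assoc]
      exact le_self_add
    · have c : ‖y‖ ≤ ‖z‖ ∧ ‖x‖ ≤ ‖z‖ := by
        rcases le_total ‖x‖ ‖y‖ with h5 | h5
        · have h6 : ‖y‖ < ‖z‖ := by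
            by_contra h7; exact b ⟨h5, not_lt.1 h7⟩
          exact ⟨h6.le, h5.trans h6.le⟩
        · have h6 : ‖x‖ < ‖z‖ := by
            by_contra h7; exact a ⟨h5, not_lt.1 h7⟩
          exact ⟨h5.trans h6.le, h6.le⟩
      rw [ind_true (show (z, y, x) ∈ A1 φ from ⟨h3, c.1, c.2, ang_swap2.1 h4⟩)]
      exact le_add_self
  · rw [ind_false h]; exact zero_le

lemma vol_E_le (φ : ℝ) : volume (E φ D) ≤ 3 * volume (A1 φ) := by
  rw [vol_iter (E_meas φ Metric.isClosed_closedBall.measurableSet)]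
  have hA := ind_meas (A1_meas φ)
  have m1 : Measurable fun p : ℂ × ℂ × ℂ => ind ((p.1, p.2.1, p.2.2) ∈ A1 φ) := hA
  have m2 : Measurable fun p : ℂ × ℂ × ℂ => ind ((p.2.1, p.1, p.2.2) ∈ A1 φ) :=
    hA.comp (by fun_prop : Measurable fun p : ℂ × ℂ × ℂ => ((p.2.1, p.1, p.2.2) : ℂ × ℂ × ℂ))
  have m3 : Measurable fun p : ℂ × ℂ × ℂ => ind ((p.2.2, p.2.1, p.1) ∈ A1 φ) :=
    hA.comp (by fun_prop : Measurable fun p : ℂ × ℂ × ℂ => ((p.2.2, p.2.1, p.1) : ℂ × ℂ × ℂ))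
  have trip : ∀ {F : ℂ × ℂ × ℂ → ℝ≥0∞}, Measurable F →
      ∫⁻ x, ∫⁻ y, ∫⁻ z, F (x, y, z) = ∫⁻ p, F p := by
    intro F hF
    rw [Measure.volume_eq_prod, lintegral_prod _ hF.aemeasurable]
    congr 1
    ext x
    have hm : Measurable fun q : ℂ × ℂ => F (x, q) := hF.comp (measurable_const.prodMk measurable_id)
    rw [Measure.volume_eq_prod, lintegral_prod _ hm.aemeasurable]
  calc ∫⁻ x, ∫⁻ y, ∫⁻ z, ind ((x, y, z) ∈ E φ D)
      ≤ ∫⁻ x, ∫⁻ y, ∫⁻ z, (ind ((x, y, z) ∈ A1 φ) + ind ((y, x, z) ∈ A1 φ) +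
          ind ((z, y, x) ∈ A1 φ)) :=
        lintegral_mono fun x => lintegral_mono fun y => lintegral_mono fun z => E_le φ x y z
    _ = ∫⁻ p : ℂ × ℂ × ℂ, (ind ((p.1, p.2.1, p.2.2) ∈ A1 φ) + ind ((p.2.1, p.1, p.2.2) ∈ A1 φ) +
          ind ((p.2.2, p.2.1, p.1) ∈ A1 φ)) :=
        trip (F := fun p : ℂ × ℂ × ℂ => (ind ((p.1, p.2.1, p.2.2) ∈ A1 φ) +
          ind ((p.2.1, p.1, p.2.2) ∈ A1 φ) + ind ((p.2.2, p.2.1, p.1) ∈ A1 φ)))
          ((m1.add m2).add m3)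
    _ = (∫⁻ x, ∫⁻ y, ∫⁻ z, ind ((x, y, z) ∈ A1 φ)) + (∫⁻ x, ∫⁻ y, ∫⁻ z, ind ((y, x, z) ∈ A1 φ)) +
          (∫⁻ x, ∫⁻ y, ∫⁻ z, ind ((z, y, x) ∈ A1 φ)) := by
        rw [lintegral_add_right _ m3, lintegral_add_right _ m2, ← trip m1, ← trip m2, ← trip m3]
    _ = 3 * volume (A1 φ) := by
        have s2 : ∫⁻ x, ∫⁻ y, ∫⁻ z, ind ((y, x, z) ∈ A1 φ) =
            ∫⁻ x, ∫⁻ y, ∫⁻ z, ind ((x, y, z) ∈ A1 φ) := by
          have hm : Measurable (fun p : ℂ × ℂ => ∫⁻ z, ind ((p.2, p.1, z) ∈ A1 φ)) := by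
            have h1 : Measurable (fun q : (ℂ × ℂ) × ℂ => ind ((q.1.2, q.1.1, q.2) ∈ A1 φ)) :=
              hA.comp (by fun_prop :
                Measurable fun q : (ℂ × ℂ) × ℂ => ((q.1.2, q.1.1, q.2) : ℂ × ℂ × ℂ))
            exact h1.lintegral_prod_right'
          exact lintegral_lintegral_swap (f := fun x y => ∫⁻ z, ind ((y, x, z) ∈ A1 φ))
            hm.aemeasurable
        have s3 : ∫⁻ x, ∫⁻ y, ∫⁻ z, ind ((z, y, x) ∈ A1 φ) =
            ∫⁻ x, ∫⁻ y, ∫⁻ z, ind ((x, y, z) ∈ A1 φ) := swap3 m3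
        rw [s2, s3, ← vol_iter (A1_meas φ)]
        ring

lemma disk_mass : ∫⁻ x : ℂ, ind (‖x‖ ≤ 1) * ENNReal.ofReal (‖x‖ ^ 4) ≤ ENNReal.ofReal (π / 3) := by
  have hm : Measurable fun x : ℂ => ind (‖x‖ ≤ 1) * ENNReal.ofReal (‖x‖ ^ 4) :=
    (ind_meas (measurableSet_le measurable_norm measurable_const)).mul (by fun_prop)
  rw [lint_polar _ hm]
  have inner : ∀ θ : ℝ, ∫⁻ r in Ioi (0:ℝ), ENNReal.ofReal r *
      (ind (‖(r : ℂ) * (cos θ + sin θ * Complex.I)‖ ≤ 1) *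
        ENNReal.ofReal (‖(r : ℂ) * (cos θ + sin θ * Complex.I)‖ ^ 4)) ≤ ENNReal.ofReal (1 / 6) := by
    intro θ
    have hn : ∀ r : ℝ, ‖(r : ℂ) * (cos θ + sin θ * Complex.I)‖ = |r| := by
      intro r
      have : ‖(r : ℂ) * e θ‖ = |r| := by
        rw [norm_mul, norm_e, mul_one, Complex.norm_real, norm_eq_abs]
      exact this
    simp only [hn]
    have hint : ∫ r in Ioc (0:ℝ) 1, r ^ 5 = 1 / 6 := by
      rw [← intervalIntegral.integral_of_le (by norm_num), integral_pow]; norm_num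
    rw [← hint, ofReal_integral_eq_lintegral_ofReal]
    · rw [← lintegral_indicator measurableSet_Ioi, ← lintegral_indicator measurableSet_Ioc]
      apply lintegral_mono
      intro r
      simp only
      by_cases hr : r ∈ Ioi (0:ℝ)
      · rw [indicator_of_mem hr]
        have hr0 : 0 < r := hr
        by_cases hr1 : r ≤ 1
        · rw [indicator_of_mem (show r ∈ Ioc (0:ℝ) 1 from ⟨hr0, hr1⟩), abs_of_pos hr0,
            ind_true hr1, one_mul, ← ENNReal.ofReal_mul hr0.le]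
          apply ENNReal.ofReal_le_ofReal
          apply le_of_eq; ring
        · rw [abs_of_pos hr0, ind_false hr1]; simp
      · rw [indicator_of_notMem hr]; exact zero_le
    · exact (Continuous.integrableOn_Ioc (by fun_prop))
    · filter_upwards [ae_restrict_mem measurableSet_Ioc] with r hr
      have := hr.1
      simp only [Pi.zero_apply]
      positivity
  calc _ ≤ ∫⁻ θ in Ioo (-π) π, ENNReal.ofReal (1 / 6) := lintegral_mono fun θ => inner θ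
    _ = ENNReal.ofReal (π / 3) := by
        rw [lintegral_const, Measure.restrict_apply MeasurableSet.univ, univ_inter,
          Real.volume_Ioo, ← ENNReal.ofReal_mul (by norm_num)]
        congr 1; ring

lemma vol_A1 (φ : ℝ) : volume (A1 φ) ≤
    ENNReal.ofReal (π / 3) * ∫⁻ w, ind (w ∈ K φ) * Cd w := by
  rw [vol_iter (A1_meas φ)]
  set J : ℝ≥0∞ := ∫⁻ h, ∫⁻ w, ENNReal.ofReal (‖h‖ ^ 2) *
    (ind (w ∈ K φ) * ind (‖1 + h‖ ≤ 1 ∧ ‖1 + h * w‖ ≤ 1)) with hJ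
  have hset : MeasurableSet {q : ℂ × ℂ | ‖1 + q.1‖ ≤ 1 ∧ ‖1 + q.1 * q.2‖ ≤ 1} := by
    have h1 : MeasurableSet {q : ℂ × ℂ | ‖1 + q.1‖ ≤ 1} :=
      measurableSet_le (by fun_prop) (by fun_prop)
    have h2 : MeasurableSet {q : ℂ × ℂ | ‖1 + q.1 * q.2‖ ≤ 1} :=
      measurableSet_le (by fun_prop) (by fun_prop)
    exact h1.inter h2
  have hFm : Measurable fun q : ℂ × ℂ => ENNReal.ofReal (‖q.1‖ ^ 2) *
      (ind (q.2 ∈ K φ) * ind (‖1 + q.1‖ ≤ 1 ∧ ‖1 + q.1 * q.2‖ ≤ 1)) :=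
    (by fun_prop : Measurable fun q : ℂ × ℂ => ENNReal.ofReal (‖q.1‖ ^ 2)).mul
      (((ind_meas (K_meas φ)).comp measurable_snd).mul (ind_meas hset))
  have e1 : ∀ x : ℂ, x ≠ 0 → ∫⁻ y, ∫⁻ z, ind ((x, y, z) ∈ A1 φ) =
      (ind (‖x‖ ≤ 1) * ENNReal.ofReal (‖x‖ ^ 4)) * J := by
    intro x hx
    rw [lint_mul x hx]
    have e2 : ∫⁻ h, ∫⁻ z, ind ((x, x + x * h, z) ∈ A1 φ) =
        ∫⁻ h, ENNReal.ofReal (‖x‖ ^ 2) * (ind (‖x‖ ≤ 1) * ∫⁻ w, ENNReal.ofReal (‖h‖ ^ 2) *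
          (ind (w ∈ K φ) * ind (‖1 + h‖ ≤ 1 ∧ ‖1 + h * w‖ ≤ 1))) := by
      apply lintegral_congr_ae
      filter_upwards [ae_ne_zero] with h hh
      have hxh : x * h ≠ 0 := mul_ne_zero hx hh
      rw [lint_mul x hxh]
      have e3 : ∀ w, ind ((x, x + x * h, x + x * h * w) ∈ A1 φ) =
          ind (‖x‖ ≤ 1) * (ind (w ∈ K φ) * ind (‖1 + h‖ ≤ 1 ∧ ‖1 + h * w‖ ≤ 1)) := by
        intro w
        rw [← ind_and, ← ind_and]
        apply ind_congr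
        have hxp : 0 < ‖x‖ := norm_pos_iff.2 hx
        have n1 : ‖x + x * h‖ ≤ ‖x‖ ↔ ‖1 + h‖ ≤ 1 := by
          rw [show x + x * h = x * (1 + h) by ring, norm_mul]
          exact mul_le_iff_le_one_right hxp
        have n2 : ‖x + x * h * w‖ ≤ ‖x‖ ↔ ‖1 + h * w‖ ≤ 1 := by
          rw [show x + x * h * w = x * (1 + h * w) by ring, norm_mul]
          exact mul_le_iff_le_one_right hxp
        unfold A1
        simp only [mem_ofPred_eq, n1, n2, ang_iff x w hxh]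
        tauto
      simp only [e3]
      have hm : Measurable fun w : ℂ => (ind (w ∈ K φ) * ind (‖1 + h‖ ≤ 1 ∧ ‖1 + h * w‖ ≤ 1)) :=
        (ind_meas (K_meas φ)).mul ((ind_meas hset).comp
          (by fun_prop : Measurable fun w : ℂ => ((h, w) : ℂ × ℂ)))
      rw [lintegral_const_mul _ hm, lintegral_const_mul _ hm, norm_mul, mul_pow,
        ENNReal.ofReal_mul (by positivity)]
      ring
    rw [e2, lintegral_const_mul' _ _ ENNReal.ofReal_ne_top, lintegral_const_mul', ← hJ]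
    · rw [← mul_assoc, ← mul_assoc, ← ENNReal.ofReal_mul (by positivity), ← pow_add,
        mul_comm (ENNReal.ofReal _) (ind _)]
    · by_cases hx1 : ‖x‖ ≤ 1
      · rw [ind_true hx1]; exact ENNReal.one_ne_top
      · rw [ind_false hx1]; exact ENNReal.zero_ne_top
  have e4 : ∫⁻ x, ∫⁻ y, ∫⁻ z, ind ((x, y, z) ∈ A1 φ) =
      ∫⁻ x : ℂ, (ind (‖x‖ ≤ 1) * ENNReal.ofReal (‖x‖ ^ 4)) * J := by
    apply lintegral_congr_ae
    filter_upwards [ae_ne_zero] with x hx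
    exact e1 x hx
  have hmx : Measurable fun x : ℂ => ind (‖x‖ ≤ 1) * ENNReal.ofReal (‖x‖ ^ 4) :=
    (ind_meas (measurableSet_le measurable_norm measurable_const)).mul (by fun_prop)
  have hJ2 : J = ∫⁻ w, ind (w ∈ K φ) * Cd w := by
    rw [hJ, lintegral_lintegral_swap (f := fun h w => ENNReal.ofReal (‖h‖ ^ 2) *
      (ind (w ∈ K φ) * ind (‖1 + h‖ ≤ 1 ∧ ‖1 + h * w‖ ≤ 1))) hFm.aemeasurable]
    apply lintegral_congr
    intro w
    unfold Cd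
    have hm : Measurable fun h : ℂ => ENNReal.ofReal (‖h‖ ^ 2) *
        ind (‖1 + h‖ ≤ 1 ∧ ‖1 + h * w‖ ≤ 1) :=
      (by fun_prop : Measurable fun h : ℂ => ENNReal.ofReal (‖h‖ ^ 2)).mul
        ((ind_meas hset).comp (by fun_prop : Measurable fun h : ℂ => ((h, w) : ℂ × ℂ)))
    rw [← lintegral_const_mul _ hm]
    apply lintegral_congr
    intro h
    ring
  rw [e4, lintegral_mul_const _ hmx, ← hJ2]
  exact mul_le_mul' disk_mass le_rfl

lemma vol_disk (φ : ℝ) : volume (E φ D) ≤ ENNReal.ofReal π * ∫⁻ w, ind (w ∈ K φ) * Cd w := by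
  refine (vol_E_le φ).trans ?_
  refine (mul_le_mul' le_rfl (vol_A1 φ)).trans ?_
  rw [← mul_assoc]
  apply mul_le_mul' _ le_rfl
  rw [show (3 : ℝ≥0∞) = ENNReal.ofReal 3 by simp, ← ENNReal.ofReal_mul (by norm_num)]
  apply ENNReal.ofReal_le_ofReal
  linarith

end Pool.Agent.Hall
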