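import Pool.Agent.Hall.Disk

/-!
# Upper bound for the density of shapes in the disk
-/

set_option autoImplicit false

namespace Pool.Agent.Hall

open MeasureTheory Real Set Filter Topology
open scoped ENNReal

lemma rad_le {R : ℝ} (hR : 0 ≤ R) : ∫⁻ r in Ioi (0 : ℝ), ENNReal.ofReal r *
    (ENNReal.ofReal (r ^ 2) * ind (r ≤ R)) ≤ ENNReal.ofReal (R ^ 4 / 4) := by
  have hint : ∫ r in Ioc (0:ℝ) R, r ^ 3 = R ^ 4 / 4 := by
    rw [← intervalIntegral.integral_of_le hR, integral_pow]; norm_num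
  rw [← hint, ofReal_integral_eq_lintegral_ofReal]
  · rw [← lintegral_indicator measurableSet_Ioi, ← lintegral_indicator measurableSet_Ioc]
    apply lintegral_mono
    intro r
    simp only
    by_cases hr : r ∈ Ioi (0:ℝ)
    · rw [indicator_of_mem hr]
      have hr0 : 0 < r := hr
      by_cases hr1 : r ≤ R
      · rw [indicator_of_mem (show r ∈ Ioc (0:ℝ) R from ⟨hr0, hr1⟩),
          ind_true hr1, mul_one, ← ENNReal.ofReal_mul hr0.le]
        apply ENNReal.ofReal_le_ofReal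
        apply le_of_eq; ring
      · rw [ind_false hr1]; simp
    · rw [indicator_of_notMem hr]; exact zero_le
  · exact (Continuous.integrableOn_Ioc (by fun_prop))
  · filter_upwards [ae_restrict_mem measurableSet_Ioc] with r hr
    have := hr.1
    simp only [Pi.zero_apply]
    positivity

lemma norm_one_add_sq (h : ℂ) : ‖1 + h‖ ^ 2 = 1 + 2 * h.re + ‖h‖ ^ 2 := by
  rw [← Complex.normSq_eq_norm_sq, ← Complex.normSq_eq_norm_sq, Complex.normSq_apply,
    Complex.normSq_apply]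
  simp
  ring

lemma cond_r {ε : ℝ} (hε : 0 ≤ ε) {w v : ℂ} (hv : ‖v‖ = 1) (hw : ‖w - v‖ < ε)
    {θ r : ℝ} (hr : 0 < r) (h1 : ‖1 + (r : ℂ) * e θ‖ ≤ 1) (h2 : ‖1 + (r : ℂ) * e θ * w‖ ≤ 1) :
    r ≤ -2 * cos θ ∧ r ≤ -2 * (e θ * v).re + 6 * ε := by
  have k1 : ‖1 + (r : ℂ) * e θ‖ ^ 2 ≤ 1 := pow_le_one₀ (norm_nonneg _) h1
  have k2 : ‖1 + (r : ℂ) * e θ * w‖ ^ 2 ≤ 1 := pow_le_one₀ (norm_nonneg _) h2
  rw [norm_one_add_sq] at k1 k2
  have n1 : ‖(r : ℂ) * e θ‖ = r := by
    rw [norm_mul, norm_e, mul_one, Complex.norm_real, norm_eq_abs, abs_of_pos hr]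
  have r1 : ((r : ℂ) * e θ).re = r * cos θ := by
    rw [Complex.re_ofReal_mul, e_re]
  have r2 : ((r : ℂ) * e θ * w).re = r * (e θ * w).re := by
    rw [mul_assoc, Complex.re_ofReal_mul]
  rw [n1, r1] at k1
  rw [norm_mul, n1, r2] at k2
  have l1 : r ≤ -2 * cos θ := by
    have : r * r ≤ r * (-2 * cos θ) := by nlinarith
    exact le_of_mul_le_mul_left this hr
  have l2 : r * ‖w‖ ^ 2 ≤ -2 * (e θ * w).re := by
    have : r * (r * ‖w‖ ^ 2) ≤ r * (-2 * (e θ * w).re) := by nlinarith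
    exact le_of_mul_le_mul_left this hr
  refine ⟨l1, ?_⟩
  have r_le : r ≤ 2 := by linarith [neg_one_le_cos θ]
  have hn : 1 - ε ≤ ‖w‖ := by
    have := norm_sub_norm_le v w
    rw [hv, norm_sub_rev] at this
    linarith
  have hsq : 1 - 2 * ε ≤ ‖w‖ ^ 2 := by
    rcases le_total 1 ε with h | h
    · have := sq_nonneg ‖w‖; linarith
    · have : (1 - ε) ^ 2 ≤ ‖w‖ ^ 2 := pow_le_pow_left₀ (by linarith) hn 2
      nlinarith
  have hre : (e θ * v).re ≤ (e θ * w).re + ε := by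
    have hnn : ‖e θ * (v - w)‖ ≤ ε := by
      rw [norm_mul, norm_e, one_mul, norm_sub_rev]; exact hw.le
    have := (Complex.abs_re_le_norm _).trans hnn
    rw [mul_sub, Complex.sub_re, abs_le] at this
    linarith [this.2]
  have : r * (1 - 2 * ε) ≤ r * ‖w‖ ^ 2 := mul_le_mul_of_nonneg_left hsq hr.le
  nlinarith

lemma Cd_le_aux {ε : ℝ} (hε : 0 ≤ ε) (hε1 : ε ≤ 1 / 10) {w v : ℂ} (hv : ‖v‖ = 1)
    (hw : ‖w - v‖ < ε) {g : ℝ → ℝ} (hg : Continuous g) (g0 : ∀ θ, 0 ≤ g θ) (g1 : ∀ θ, g θ ≤ 1)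
    (hmin : ∀ θ, min (-cos θ) (-(e θ * v).re) ≤ g θ)
    (hint : ∫ θ in (-π)..π, g θ ^ 4 ≤ π / 4 - 9 * √3 / 32) :
    Cd w ≤ ENNReal.ofReal (π - 9 * √3 / 8 + 360 * π * ε) := by
  have hset : MeasurableSet {h : ℂ | ‖1 + h‖ ≤ 1 ∧ ‖1 + h * w‖ ≤ 1} := by
    have h1 : MeasurableSet {h : ℂ | ‖1 + h‖ ≤ 1} :=
      measurableSet_le (by fun_prop) (by fun_prop)
    have h2 : MeasurableSet {h : ℂ | ‖1 + h * w‖ ≤ 1} :=
      measurableSet_le (by fun_prop) (by fun_prop)
    exact h1.inter h2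
  have hm : Measurable fun h : ℂ => ENNReal.ofReal (‖h‖ ^ 2) *
      ind (‖1 + h‖ ≤ 1 ∧ ‖1 + h * w‖ ≤ 1) :=
    (by fun_prop : Measurable fun h : ℂ => ENNReal.ofReal (‖h‖ ^ 2)).mul (ind_meas hset)
  unfold Cd
  rw [lint_polar _ hm]
  have inner : ∀ θ : ℝ, ∫⁻ r in Ioi (0:ℝ), ENNReal.ofReal r *
      (ENNReal.ofReal (‖(r : ℂ) * (cos θ + sin θ * Complex.I)‖ ^ 2) *
        ind (‖1 + (r : ℂ) * (cos θ + sin θ * Complex.I)‖ ≤ 1 ∧
          ‖1 + (r : ℂ) * (cos θ + sin θ * Complex.I) * w‖ ≤ 1)) ≤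
      ENNReal.ofReal (4 * g θ ^ 4 + 180 * ε) := by
    intro θ
    have hR : 0 ≤ 2 * g θ + 6 * ε := by linarith [g0 θ]
    calc _ ≤ ∫⁻ r in Ioi (0 : ℝ), ENNReal.ofReal r *
          (ENNReal.ofReal (r ^ 2) * ind (r ≤ 2 * g θ + 6 * ε)) := by
          apply setLIntegral_mono_ae' measurableSet_Ioi
          filter_upwards with r hr
          have hr0 : 0 < r := hr
          apply mul_le_mul' le_rfl
          have hn : ‖(r : ℂ) * e θ‖ = r := by
            rw [norm_mul, norm_e, mul_one, Complex.norm_real, norm_eq_abs, abs_of_pos hr0]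
          change ENNReal.ofReal (‖(r : ℂ) * e θ‖ ^ 2) * ind (‖1 + (r : ℂ) * e θ‖ ≤ 1 ∧
            ‖1 + (r : ℂ) * e θ * w‖ ≤ 1) ≤ _
          rw [hn]
          apply mul_le_mul' le_rfl
          apply ind_mono
          rintro ⟨h1, h2⟩
          obtain ⟨c1, c2⟩ := cond_r hε hv hw hr0 h1 h2
          have := hmin θ
          rcases le_total (-cos θ) (-(e θ * v).re) with h | h
          · rw [min_eq_left h] at this; linarith
          · rw [min_eq_right h] at this; linarith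
      _ ≤ ENNReal.ofReal ((2 * g θ + 6 * ε) ^ 4 / 4) := rad_le hR
      _ ≤ ENNReal.ofReal (4 * g θ ^ 4 + 180 * ε) := by
          apply ENNReal.ofReal_le_ofReal
          have a0 := g0 θ
          have a1 := g1 θ
          set x := g θ
          set η := 3 * ε with hη
          have hη0 : 0 ≤ η := by positivity
          have hη1 : η ≤ 1 := by linarith
          have hx2 : x ^ 2 ≤ 1 := pow_le_one₀ a0 a1
          have hx3 : x ^ 3 ≤ 1 := pow_le_one₀ a0 a1
          have hη2 : η ^ 2 ≤ η := by nlinarith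
          have hη3 : η ^ 3 ≤ η := by nlinarith [pow_nonneg hη0 2]
          have hη4 : η ^ 4 ≤ η := by nlinarith [pow_nonneg hη0 3]
          have b1 : x ^ 3 * η ≤ η := by nlinarith
          have b2 : x ^ 2 * η ^ 2 ≤ η := by nlinarith [pow_nonneg hη0 2, pow_nonneg a0 2]
          have b3 : x * η ^ 3 ≤ η := by nlinarith [pow_nonneg hη0 3]
          have e1 : (2 * x + 6 * ε) ^ 4 / 4 =
              4 * (x ^ 4 + 4 * (x ^ 3 * η) + 6 * (x ^ 2 * η ^ 2) + 4 * (x * η ^ 3) + η ^ 4) := by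
            rw [hη]; ring
          rw [e1]
          linarith
  have hc : Continuous fun θ => 4 * g θ ^ 4 + 180 * ε := by fun_prop
  calc _ ≤ ∫⁻ θ in Ioo (-π) π, ENNReal.ofReal (4 * g θ ^ 4 + 180 * ε) :=
        lintegral_mono fun θ => inner θ
    _ = ENNReal.ofReal (∫ θ in Ioo (-π) π, (4 * g θ ^ 4 + 180 * ε)) := by
        rw [ofReal_integral_eq_lintegral_ofReal]
        · exact (Continuous.integrableOn_Ioc hc).mono_set Ioo_subset_Ioc_self
        · filter_upwards with θ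
          have := g0 θ
          simp only [Pi.zero_apply]
          positivity
    _ ≤ _ := by
        apply ENNReal.ofReal_le_ofReal
        rw [← integral_Ioc_eq_integral_Ioo, ← intervalIntegral.integral_of_le (by linarith [pi_pos]),
          intervalIntegral.integral_add, intervalIntegral.integral_const_mul,
          intervalIntegral.integral_const, smul_eq_mul]
        · linarith
        · exact Continuous.intervalIntegrable (by fun_prop) _ _
        · exact Continuous.intervalIntegrable (by fun_prop) _ _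

lemma Cd_le {ε : ℝ} (hε1 : ε ≤ 1 / 10) {w : ℂ} (h : ‖w - w0‖ < ε ∨ ‖w - w1‖ < ε) :
    Cd w ≤ ENNReal.ofReal (π - 9 * √3 / 8 + 360 * π * ε) := by
  rcases h with h | h
  · have hε : 0 ≤ ε := (norm_nonneg _).trans h.le
    refine Cd_le_aux hε hε1 norm_w0 h dk_cont dk_nonneg dk_le_one ?_ int_dk
    intro θ
    rw [e_w0_re]
    exact le_max_right _ _
  · have hε : 0 ≤ ε := (norm_nonneg _).trans h.le
    refine Cd_le_aux hε hε1 norm_w1 h (g := fun θ => dk (-θ)) (dk_cont.comp continuous_neg)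
      (fun θ => dk_nonneg _) (fun θ => dk_le_one _) ?_ ?_
    · intro θ
      rw [e_w1_re]
      have : dk (-θ) = max 0 (min (-cos θ) (-cos (θ - π / 3))) := by
        unfold dk
        rw [cos_neg, show -θ + π / 3 = -(θ - π / 3) by ring, cos_neg]
      rw [this]
      exact le_max_right _ _
    · have := intervalIntegral.integral_comp_neg (a := -π) (b := π) (fun θ => dk θ ^ 4)
      rw [neg_neg] at this
      rw [this]
      exact int_dk

end Pool.Agent.Hall
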