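import Mathlib

/-!
# Shapes of triangles whose largest angle is only slightly larger than `π/3`
-/

set_option autoImplicit false

namespace Pool.Agent.Hall

open MeasureTheory Real Set InnerProductGeometry Filter Topology

/-- the shapes `w` such that the triangle `0, 1, w` has all angles at most `φ` -/
def K (φ : ℝ) : Set ℂ :=
  {w | angle 1 w ≤ φ ∧ angle (-1) (w - 1) ≤ φ ∧ angle (-w) (1 - w) ≤ φ}

/-- all angles of the triangle `x, y, z` are at most `φ` -/
def Ang {V : Type*} [NormedAddCommGroup V] [InnerProductSpace ℝ V] (φ : ℝ) (x y z : V) : Prop :=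
  angle (y - x) (z - x) ≤ φ ∧ angle (x - y) (z - y) ≤ φ ∧ angle (x - z) (y - z) ≤ φ

lemma ang_iff {φ : ℝ} (x w : ℂ) {h : ℂ} (hh : h ≠ 0) :
    Ang φ x (x + h) (x + h * w) ↔ w ∈ K φ := by
  unfold Ang K
  have e1 : angle (x + h - x) (x + h * w - x) = angle 1 w := by
    rw [show x + h - x = h * 1 by ring, show x + h * w - x = h * w by ring,
      Complex.angle_mul_left hh]
  have e2 : angle (x - (x + h)) (x + h * w - (x + h)) = angle (-1) (w - 1) := by
    rw [show x - (x + h) = h * (-1) by ring, show x + h * w - (x + h) = h * (w - 1) by ring,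
      Complex.angle_mul_left hh]
  have e3 : angle (x - (x + h * w)) (x + h - (x + h * w)) = angle (-w) (1 - w) := by
    rw [show x - (x + h * w) = h * (-w) by ring, show x + h - (x + h * w) = h * (1 - w) by ring,
      Complex.angle_mul_left hh]
  rw [e1, e2, e3]
  rfl

lemma meas_angle {X V : Type*} [MeasurableSpace X] [NormedAddCommGroup V] [InnerProductSpace ℝ V]
    [MeasurableSpace V] [OpensMeasurableSpace V] [SecondCountableTopology V]
    {f g : X → V} (hf : Measurable f) (hg : Measurable g) :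
    Measurable fun x => angle (f x) (g x) := by
  unfold InnerProductGeometry.angle
  exact Real.continuous_arccos.measurable.comp
    ((hf.inner hg).div (hf.norm.mul hg.norm))

lemma K_meas (φ : ℝ) : MeasurableSet (K φ) := by
  unfold K
  apply MeasurableSet.inter
  · exact measurableSet_le (meas_angle measurable_const measurable_id) measurable_const
  apply MeasurableSet.inter
  · exact measurableSet_le (meas_angle measurable_const (measurable_id.sub measurable_const))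
      measurable_const
  · exact measurableSet_le (meas_angle measurable_id.neg (measurable_const.sub measurable_id))
      measurable_const

/-- the shape of the equilateral triangle -/
noncomputable def w0 : ℂ := ⟨1 / 2, √3 / 2⟩

/-- the other shape of the equilateral triangle -/
noncomputable def w1 : ℂ := ⟨1 / 2, -(√3 / 2)⟩

lemma w0_mul (w : ℂ) : (w - w0) * (w - w1) = w ^ 2 - w + 1 := by
  have h : (√3 : ℝ) ^ 2 = 3 := sq_sqrt (by norm_num)
  apply Complex.ext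
  · simp [w0, w1, sq]
    nlinarith
  · simp [w0, w1, sq]
    ring

lemma norm_w0 : ‖w0‖ = 1 := by
  have h : (√3 : ℝ) ^ 2 = 3 := sq_sqrt (by norm_num)
  rw [Complex.norm_def, Complex.normSq_apply]
  simp only [w0]
  rw [show (1 / 2 * (1 / 2) + √3 / 2 * (√3 / 2) : ℝ) = 1 by nlinarith]
  simp

lemma norm_w1 : ‖w1‖ = 1 := by
  have h : (√3 : ℝ) ^ 2 = 3 := sq_sqrt (by norm_num)
  rw [Complex.norm_def, Complex.normSq_apply]
  simp only [w1]
  rw [show (1 / 2 * (1 / 2) + -(√3 / 2) * -(√3 / 2) : ℝ) = 1 by nlinarith]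
  simp

lemma norm_quad (w : ℂ) : ‖w ^ 2 - w + 1‖ ^ 2 =
    ((‖w‖ ^ 2 - ‖w - 1‖ ^ 2) ^ 2 + (‖w‖ ^ 2 - 1) ^ 2 + (‖w - 1‖ ^ 2 - 1) ^ 2) / 2 := by
  rw [← Complex.normSq_eq_norm_sq, ← Complex.normSq_eq_norm_sq, ← Complex.normSq_eq_norm_sq]
  simp only [Complex.normSq_apply, Complex.add_re, Complex.add_im, Complex.sub_re, Complex.sub_im,
    Complex.one_re, Complex.one_im, sq, Complex.mul_re, Complex.mul_im]
  ring

lemma angle_ineq {V : Type*} [NormedAddCommGroup V] [InnerProductSpace ℝ V] {φ : ℝ} (hφ : φ ≤ π)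
    {x y : V} (h : angle x y ≤ φ) : cos φ * (‖x‖ * ‖y‖) ≤ inner ℝ x y := by
  rw [← cos_angle_mul_norm_mul_norm]
  exact mul_le_mul_of_nonneg_right (cos_le_cos_of_nonneg_of_le_pi (angle_nonneg x y) hφ h)
    (by positivity)

lemma alg1 {κ p q : ℝ} (hκ1 : κ ≤ 1 / 2) (h4 : 1 / 2 - κ < 1 / 10) (hp0 : 0 < p)
    (d2 : κ * (1 + q) ≤ p) (d3 : κ * (1 + p) ≤ q) : 1 - 4 * (1 / 2 - κ) ≤ p := by
  have hκ0 : 0 < κ := by linarith
  have h5 : κ * (1 + κ * (1 + p)) ≤ p := (mul_le_mul_of_nonneg_left (by linarith) hκ0.le).trans d2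
  have h6 : κ * (1 + κ) ≤ p * (1 - κ ^ 2) := by linarith
  have h7 : κ ≤ p * (1 - κ) := by
    have : (1 + κ) * κ ≤ (1 + κ) * (p * (1 - κ)) := by linarith
    exact le_of_mul_le_mul_left this (by linarith)
  have h8 : (1 - 4 * (1 / 2 - κ)) * (1 - κ) ≤ κ := by nlinarith [sq_nonneg (1 - 2 * κ)]
  exact le_of_mul_le_mul_right (h8.trans h7) (by linarith)

lemma sq_bound {a b : ℝ} (h : |a| ≤ b) : a ^ 2 ≤ b ^ 2 := by
  rw [← sq_abs]; exact pow_le_pow_left₀ (abs_nonneg _) h 2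

lemma alg2 {κ p q : ℝ} (hκ1 : κ ≤ 1 / 2) (h4 : 1 / 2 - κ < 1 / 10) (hp0 : 0 < p) (hq0 : 0 < q)
    (d1 : κ * (p + q) ≤ 1) (d2 : κ * (1 + q) ≤ p) (d3 : κ * (1 + p) ≤ q) :
    ((p ^ 2 - q ^ 2) ^ 2 + (p ^ 2 - 1) ^ 2 + (q ^ 2 - 1) ^ 2) / 2 ≤ (60 * (1 / 2 - κ)) ^ 2 := by
  have lp := alg1 hκ1 h4 hp0 d2 d3
  have lq := alg1 hκ1 h4 hq0 d3 d2
  obtain ⟨η, hη⟩ : ∃ η, η = 1 / 2 - κ := ⟨_, rfl⟩
  rw [← hη] at lp lq h4 ⊢
  have hη0 : 0 ≤ η := by linarith
  have hκη : κ = 1 / 2 - η := by linarith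
  have hsum : p + q ≤ 2 + 6 * η := by
    rw [hκη] at d1
    by_contra hcon
    rw [not_le] at hcon
    have : (1 / 2 - η) * (2 + 6 * η) < (1 / 2 - η) * (p + q) :=
      mul_lt_mul_of_pos_left hcon (by linarith)
    nlinarith
  have up : p ≤ 1 + 10 * η := by linarith
  have uq : q ≤ 1 + 10 * η := by linarith
  have P1 : |p ^ 2 - 1| ≤ 30 * η := by
    rw [abs_le]; constructor <;> nlinarith
  have Q1 : |q ^ 2 - 1| ≤ 30 * η := by
    rw [abs_le]; constructor <;> nlinarith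
  have PQ : |p ^ 2 - q ^ 2| ≤ 60 * η := by
    have := abs_sub_le (p ^ 2) 1 (q ^ 2)
    rw [abs_sub_comm 1 (q ^ 2)] at this
    linarith
  have e1 := sq_bound PQ
  have e2 := sq_bound P1
  have e3 := sq_bound Q1
  linarith [sq_nonneg η, mul_pow 60 η 2, mul_pow 30 η 2]

lemma norm_quad_pq (w : ℂ) {p q : ℝ} (hp : p = ‖w‖) (hq : q = ‖w - 1‖) :
    ‖w ^ 2 - w + 1‖ ^ 2 = ((p ^ 2 - q ^ 2) ^ 2 + (p ^ 2 - 1) ^ 2 + (q ^ 2 - 1) ^ 2) / 2 := by
  rw [norm_quad, hp, hq]

lemma K_small {ε φ : ℝ} (hε : 0 < ε) (h1 : π / 3 < φ) (h2 : φ < π / 2)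
    (h3 : 1 / 2 - cos φ < ε ^ 2 / 60) (h4 : 1 / 2 - cos φ < 1 / 10) {w : ℂ} (hw : w ∈ K φ) :
    ‖w - w0‖ < ε ∨ ‖w - w1‖ < ε := by
  obtain ⟨a1, a2, a3⟩ := hw
  have hpi := pi_pos
  have w_ne : w ≠ 0 := by
    rintro rfl
    rw [angle_zero_right] at a1
    linarith
  have w1_ne : w - 1 ≠ 0 := by
    intro h
    rw [h, angle_zero_right] at a2
    linarith
  set κ := cos φ with hκ
  have hκ1 : κ ≤ 1 / 2 := by
    rw [hκ, ← cos_pi_div_three]
    exact cos_le_cos_of_nonneg_of_le_pi (by linarith) (by linarith) h1.le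
  set p := ‖w‖ with hp
  set q := ‖w - 1‖ with hq
  have hp0 : 0 < p := norm_pos_iff.2 w_ne
  have hq0 : 0 < q := norm_pos_iff.2 w1_ne
  have hP : p ^ 2 = w.re * w.re + w.im * w.im := by
    rw [hp, ← Complex.normSq_eq_norm_sq, Complex.normSq_apply]
  have hQ : q ^ 2 = (w.re - 1) * (w.re - 1) + w.im * w.im := by
    rw [hq, ← Complex.normSq_eq_norm_sq, Complex.normSq_apply]
    simp
  have b1 := angle_ineq (by linarith) a1
  have b2 := angle_ineq (by linarith) a2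
  have b3 := angle_ineq (by linarith) a3
  rw [norm_one, one_mul, Complex.inner] at b1
  rw [norm_neg, norm_one, one_mul, Complex.inner] at b2
  rw [norm_neg, norm_sub_rev, Complex.inner] at b3
  simp at b1 b2 b3
  rw [← hκ, ← hp] at b1
  rw [← hκ, ← hq] at b2
  rw [← hκ, ← hp, ← hq] at b3
  have c1 : κ * p ≤ w.re := b1
  have c2 : κ * q ≤ 1 - w.re := by linarith
  have c3 : κ * (p * q) ≤ p ^ 2 - w.re := by rw [hP]; linarith
  have hx : 2 * w.re = 1 + p ^ 2 - q ^ 2 := by rw [hP, hQ]; ring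
  have d1 : κ * (p + q) ≤ 1 := by linarith
  have d2 : κ * (1 + q) ≤ p := by
    have : p * (κ * (1 + q)) ≤ p * p := by linarith [mul_comm κ (p * q), sq p]
    exact le_of_mul_le_mul_left this hp0
  have d3 : κ * (1 + p) ≤ q := by
    have : q * (κ * (1 + p)) ≤ q * q := by linarith [mul_comm κ (p * q), sq q]
    exact le_of_mul_le_mul_left this hq0
  have hκ0 : 0 < κ := by linarith
  have key2 : ‖w ^ 2 - w + 1‖ ≤ 60 * (1 / 2 - κ) := by
    have key := alg2 hκ1 (by linarith) hp0 hq0 d1 d2 d3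
    rw [← norm_quad_pq w hp hq] at key
    exact le_of_sq_le_sq key (by linarith)
  by_contra hcon
  rw [not_or, not_lt, not_lt] at hcon
  have : ε * ε ≤ ‖w - w0‖ * ‖w - w1‖ := mul_le_mul hcon.1 hcon.2 hε.le (norm_nonneg _)
  rw [← norm_mul, w0_mul] at this
  nlinarith

lemma angle_w0 : angle 1 w0 = π / 3 := by
  unfold InnerProductGeometry.angle
  rw [norm_w0, norm_one, Complex.inner]
  simp only [map_one, mul_one, div_one]
  rw [show w0.re = cos (π / 3) by rw [cos_pi_div_three]; rfl]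
  exact arccos_cos (by positivity) (by linarith [pi_pos])

lemma norm_w0_sub : ‖w0 - 1‖ = 1 := by
  have h : (√3 : ℝ) ^ 2 = 3 := sq_sqrt (by norm_num)
  rw [Complex.norm_def, Complex.normSq_apply]
  simp only [w0, Complex.sub_re, Complex.sub_im, Complex.one_re, Complex.one_im]
  rw [show ((1 / 2 - 1) * (1 / 2 - 1) + (√3 / 2 - 0) * (√3 / 2 - 0) : ℝ) = 1 by nlinarith]
  simp

lemma angle_w0' : angle (-1) (w0 - 1) = π / 3 := by
  unfold InnerProductGeometry.angle
  rw [norm_w0_sub, norm_neg, norm_one, Complex.inner]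
  rw [show ((w0 - 1) * (starRingEnd ℂ) (-1)).re = cos (π / 3) by
    rw [cos_pi_div_three]; simp [w0]; norm_num]
  simp only [mul_one, div_one]
  exact arccos_cos (by positivity) (by linarith [pi_pos])

lemma angle_w0'' : angle (-w0) (1 - w0) = π / 3 := by
  unfold InnerProductGeometry.angle
  rw [norm_sub_rev, norm_w0_sub, norm_neg, norm_w0, Complex.inner]
  have h : (√3 : ℝ) ^ 2 = 3 := sq_sqrt (by norm_num)
  rw [show ((1 - w0) * (starRingEnd ℂ) (-w0)).re = cos (π / 3) by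
    rw [cos_pi_div_three]; simp [w0]; nlinarith]
  simp only [mul_one, div_one]
  exact arccos_cos (by positivity) (by linarith [pi_pos])

lemma K_nhds {φ : ℝ} (h : π / 3 < φ) : K φ ∈ 𝓝 w0 := by
  have n0 : w0 ≠ 0 := by rw [← norm_pos_iff, norm_w0]; norm_num
  have n1 : w0 - 1 ≠ 0 := by rw [← norm_pos_iff, norm_w0_sub]; norm_num
  have n2 : 1 - w0 ≠ 0 := by rw [← neg_sub]; exact neg_ne_zero.2 n1
  have c1 : ContinuousAt (fun w : ℂ => angle 1 w) w0 :=
    (continuousAt_angle (x := ((1 : ℂ), w0)) one_ne_zero n0).comp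
      (f := fun w : ℂ => ((1 : ℂ), w)) (by fun_prop)
  have c2 : ContinuousAt (fun w : ℂ => angle (-1) (w - 1)) w0 :=
    (continuousAt_angle (x := ((-1 : ℂ), w0 - 1)) (neg_ne_zero.2 one_ne_zero) n1).comp
      (f := fun w : ℂ => ((-1 : ℂ), w - 1)) (by fun_prop)
  have c3 : ContinuousAt (fun w : ℂ => angle (-w) (1 - w)) w0 :=
    (continuousAt_angle (x := (-w0, 1 - w0)) (neg_ne_zero.2 n0) n2).comp
      (f := fun w : ℂ => (-w, 1 - w)) (by fun_prop)
  have e1 : ∀ᶠ w in 𝓝 w0, angle 1 w < φ := c1.tendsto.eventually_lt_const (by rw [angle_w0]; exact h)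
  have e2 : ∀ᶠ w in 𝓝 w0, angle (-1) (w - 1) < φ :=
    c2.tendsto.eventually_lt_const (by rw [angle_w0']; exact h)
  have e3 : ∀ᶠ w in 𝓝 w0, angle (-w) (1 - w) < φ :=
    c3.tendsto.eventually_lt_const (by rw [angle_w0'']; exact h)
  filter_upwards [e1, e2, e3] with w h1 h2 h3
  exact ⟨h1.le, h2.le, h3.le⟩

end Pool.Agent.Hall
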