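import Pool.Agent.Hall.Trig

/-!
# The trigonometric integral for the square
-/

set_option autoImplicit false

namespace Pool.Agent.Hall

open MeasureTheory Real Set

/-- width of the equilateral triangle in the horizontal direction -/
noncomputable def Wd (θ : ℝ) : ℝ := max |cos θ| (max |cos (θ + π / 3)| |cos (θ - π / 3)|)

/-- width of the equilateral triangle in the vertical direction -/
noncomputable def Vd (θ : ℝ) : ℝ := max |sin θ| (max |sin (θ + π / 3)| |sin (θ - π / 3)|)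

/-- the radial integral -/
noncomputable def qf (a b : ℝ) : ℝ :=
  1 / (4 * max a b ^ 4) - (a + b) / (5 * max a b ^ 5) + a * b / (6 * max a b ^ 6)

lemma qf_comm (a b : ℝ) : qf a b = qf b a := by
  unfold qf
  rw [max_comm a b, add_comm a b, mul_comm a b]

lemma qf_smul {l : ℝ} (hl : 0 < l) (a b : ℝ) : qf (l * a) (l * b) = (l ^ 4)⁻¹ * qf a b := by
  unfold qf
  rw [← mul_max_of_nonneg _ _ hl.le]
  by_cases hm : max a b = 0
  · simp [hm]
  · field_simp

lemma Wd_cont : Continuous Wd := by unfold Wd; fun_prop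
lemma Vd_cont : Continuous Vd := by unfold Vd; fun_prop

lemma Wd_neg (θ : ℝ) : Wd (-θ) = Wd θ := by
  unfold Wd
  rw [cos_neg, show -θ + π / 3 = -(θ - π / 3) by ring, cos_neg,
    show -θ - π / 3 = -(θ + π / 3) by ring, cos_neg, max_comm |cos (θ - π / 3)|]

lemma Vd_neg (θ : ℝ) : Vd (-θ) = Vd θ := by
  unfold Vd
  rw [sin_neg, show -θ + π / 3 = -(θ - π / 3) by ring, sin_neg,
    show -θ - π / 3 = -(θ + π / 3) by ring, sin_neg, abs_neg, abs_neg, abs_neg,
    max_comm |sin (θ - π / 3)|]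

lemma Wd_shift (θ : ℝ) : Wd (θ + π / 6) = Vd θ := by
  unfold Wd Vd
  have h1 : |cos (θ + π / 6 + π / 3)| = |sin θ| := by
    rw [show θ + π / 6 + π / 3 = θ + π / 2 by ring, cos_add_pi_div_two, abs_neg]
  have h2 : |cos (θ + π / 6 - π / 3)| = |sin (θ + π / 3)| := by
    rw [show θ + π / 6 - π / 3 = -(π / 2 - (θ + π / 3)) by ring, cos_neg, cos_pi_div_two_sub]
  have h3 : |cos (θ + π / 6)| = |sin (θ - π / 3)| := by
    rw [show θ + π / 6 = (θ - π / 3) + π / 2 by ring, cos_add_pi_div_two, abs_neg]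
  rw [h1, h2, h3]
  rw [max_left_comm, max_comm |sin (θ - π / 3)|]

lemma Vd_shift (θ : ℝ) : Vd (θ + π / 6) = Wd θ := by
  unfold Wd Vd
  have h1 : |sin (θ + π / 6 + π / 3)| = |cos θ| := by
    rw [show θ + π / 6 + π / 3 = θ + π / 2 by ring, sin_add_pi_div_two]
  have h2 : |sin (θ + π / 6 - π / 3)| = |cos (θ + π / 3)| := by
    rw [show θ + π / 6 - π / 3 = -(π / 2 - (θ + π / 3)) by ring, sin_neg, sin_pi_div_two_sub,
      abs_neg]
  have h3 : |sin (θ + π / 6)| = |cos (θ - π / 3)| := by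
    rw [show θ + π / 6 = (θ - π / 3) + π / 2 by ring, sin_add_pi_div_two]
  rw [h1, h2, h3]
  rw [max_left_comm, max_comm |cos (θ - π / 3)|]

lemma sq_sum (θ : ℝ) : cos θ ^ 2 + cos (θ + π / 3) ^ 2 + cos (θ - π / 3) ^ 2 = 3 / 2 := by
  rw [cos_add, cos_sub, cos_pi_div_three, sin_pi_div_three]
  have h := sqrt3_sq
  have h2 := sin_sq_add_cos_sq θ
  ring_nf
  rw [h]
  linarith

lemma Wd_ge (θ : ℝ) : 1 / 2 ≤ Wd θ := by
  by_contra hlt
  rw [not_le] at hlt
  have h := sq_sum θ
  have h1 : |cos θ| ≤ Wd θ := le_max_left _ _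
  have h2 : |cos (θ + π / 3)| ≤ Wd θ := (le_max_left _ _).trans (le_max_right _ _)
  have h3 : |cos (θ - π / 3)| ≤ Wd θ := (le_max_right _ _).trans (le_max_right _ _)
  have g1 : cos θ ^ 2 ≤ (1 / 2) ^ 2 := by
    rw [← sq_abs]; exact pow_le_pow_left₀ (abs_nonneg _) (by linarith) 2
  have g2 : cos (θ + π / 3) ^ 2 ≤ (1 / 2) ^ 2 := by
    rw [← sq_abs]; exact pow_le_pow_left₀ (abs_nonneg _) (by linarith) 2
  have g3 : cos (θ - π / 3) ^ 2 ≤ (1 / 2) ^ 2 := by
    rw [← sq_abs]; exact pow_le_pow_left₀ (abs_nonneg _) (by linarith) 2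
  linarith

lemma Vd_ge (θ : ℝ) : 1 / 2 ≤ Vd θ := by rw [← Wd_shift]; exact Wd_ge _

/-- the integrand for the square -/
noncomputable def sf (θ : ℝ) : ℝ := qf (Wd θ) (Vd θ)

lemma sf_neg (θ : ℝ) : sf (-θ) = sf θ := by unfold sf; rw [Wd_neg, Vd_neg]

lemma sf_periodic : Function.Periodic sf (π / 6) := by
  intro θ
  unfold sf
  rw [Wd_shift, Vd_shift, qf_comm]

lemma sf_cont : Continuous sf := by
  unfold sf qf
  have hW := Wd_cont
  have hV := Vd_cont
  have hM : ∀ θ, max (Wd θ) (Vd θ) ≠ 0 := fun θ => by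
    have := (Wd_ge θ).trans (le_max_left (Wd θ) (Vd θ))
    intro h; rw [h] at this; norm_num at this
  have h1 : Continuous fun θ => max (Wd θ) (Vd θ) := hW.max hV
  refine ((continuous_const.div (continuous_const.mul (h1.pow 4)) fun θ => ?_).sub
    ((hW.add hV).div (continuous_const.mul (h1.pow 5)) fun θ => ?_)).add
    ((hW.mul hV).div (continuous_const.mul (h1.pow 6)) fun θ => ?_)
  all_goals exact mul_ne_zero (by norm_num) (pow_ne_zero _ (hM θ))

lemma sf_eq {θ : ℝ} (h0 : 0 ≤ θ) (h1 : θ ≤ π / 12) :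
    sf θ = (1 / 20 - √3 / 60) * (1 / cos θ ^ 4) - sin θ / (60 * cos θ ^ 5) := by
  have hpi := pi_pos
  have hc : 0 < cos θ := cos_pos_of_mem_Ioo ⟨by linarith, by linarith⟩
  have hs : 0 ≤ sin θ := sin_nonneg_of_nonneg_of_le_pi h0 (by linarith)
  have ha : cos (θ + π / 3) = cos θ / 2 - √3 / 2 * sin θ := by
    rw [cos_add, cos_pi_div_three, sin_pi_div_three]; ring
  have hb : cos (θ - π / 3) = cos θ / 2 + √3 / 2 * sin θ := by
    rw [cos_sub, cos_pi_div_three, sin_pi_div_three]; ring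
  have hd : sin (θ + π / 3) = sin θ / 2 + √3 / 2 * cos θ := by
    rw [sin_add, cos_pi_div_three, sin_pi_div_three]; ring
  have he : sin (θ - π / 3) = sin θ / 2 - √3 / 2 * cos θ := by
    rw [sin_sub, cos_pi_div_three, sin_pi_div_three]; ring
  have h3 : 0 ≤ √3 := sqrt_nonneg 3
  -- `cos (θ - π/3) ≤ cos θ` and `sin (θ + π/3) ≤ cos θ`
  have k1 : cos (θ - π / 3) ≤ cos θ := by
    rw [← cos_neg (θ - π / 3)]
    exact cos_le_cos_of_nonneg_of_le_pi h0 (by linarith) (by linarith)
  have k2 : sin (θ + π / 3) ≤ cos θ := by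
    rw [← cos_pi_div_two_sub]
    exact cos_le_cos_of_nonneg_of_le_pi h0 (by linarith) (by linarith)
  have hss : 0 ≤ √3 * sin θ := mul_nonneg h3 hs
  have hsc : 0 ≤ √3 * cos θ := mul_nonneg h3 hc.le
  have hW : Wd θ = cos θ := by
    unfold Wd
    rw [abs_of_pos hc]
    apply max_eq_left
    apply max_le
    · rw [abs_le]
      constructor <;> linarith
    · rw [abs_of_nonneg (by linarith)]
      exact k1
  have hV : Vd θ = sin (θ + π / 3) := by
    unfold Vd
    rw [abs_of_nonneg hs]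
    have hp : 0 ≤ sin (θ + π / 3) := by linarith
    rw [abs_of_nonneg hp]
    have q1 : |sin (θ - π / 3)| ≤ sin (θ + π / 3) := by
      rw [abs_le]
      constructor <;> linarith
    rw [max_eq_left q1]
    apply max_eq_right
    have : sin θ ≤ √3 * cos θ := by
      have h4 : 1 ≤ √3 := by
        rw [show (1:ℝ) = √1 by simp]; exact sqrt_le_sqrt (by norm_num)
      have h5 : sin θ ≤ cos θ := by
        rw [← cos_pi_div_two_sub]
        exact cos_le_cos_of_nonneg_of_le_pi h0 (by linarith) (by linarith)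
      nlinarith
    linarith
  unfold sf qf
  rw [hW, hV, max_eq_left k2, hd]
  field_simp
  ring

/-- primitive -/
noncomputable def Gp (x : ℝ) : ℝ :=
  (1 / 20 - √3 / 60) * (tan x + tan x ^ 3 / 3) - 1 / (240 * cos x ^ 4)

lemma Gp_deriv {x : ℝ} (hc : cos x ≠ 0) : HasDerivAt Gp
    ((1 / 20 - √3 / 60) * (1 / cos x ^ 4) - sin x / (60 * cos x ^ 5)) x := by
  have ht := hasDerivAt_tan hc
  have h1 := (ht.add ((ht.pow 3).div_const 3)).const_mul (1 / 20 - √3 / 60)
  have h2 := (((hasDerivAt_cos x).pow 4).const_mul 240).inv (by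
    simp only [Pi.pow_apply]
    exact mul_ne_zero (by norm_num) (pow_ne_zero _ hc))
  have h3 := h1.sub h2
  refine (h3.congr_deriv ?_).congr_of_eventuallyEq ?_
  · simp only [Pi.pow_apply, tan_eq_sin_div_cos]
    have hs := sin_sq_add_cos_sq x
    have e : sin x ^ 2 = 1 - cos x ^ 2 := by linarith
    push_cast
    field_simp
    ring_nf
    rw [e]
    ring
  · filter_upwards with y
    simp [Gp]

lemma tan_fifteen : tan (π / 12) = 2 - √3 := by
  rw [show π / 12 = π / 3 - π / 4 by ring, tan_eq_sin_div_cos, sin_sub, cos_sub,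
    cos_pi_div_three, sin_pi_div_three, cos_pi_div_four, sin_pi_div_four]
  have h := sqrt3_sq
  have h2 : (√2 : ℝ) ≠ 0 := by positivity
  have h3 : 0 < √3 := by positivity
  have h4 : (1 / 2 * (√2 / 2) + √3 / 2 * (√2 / 2)) ≠ 0 := by positivity
  rw [div_eq_iff h4]
  have : √3 * √3 = 3 := by rw [← sq]; exact h
  ring_nf
  rw [h]
  ring

lemma cos_fifteen : 1 / cos (π / 12) ^ 2 = 8 - 4 * √3 := by
  have hpi := pi_pos
  have hc : 0 < cos (π / 12) := cos_pos_of_mem_Ioo ⟨by linarith, by linarith⟩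
  have h := inv_one_add_tan_sq hc.ne'
  rw [tan_fifteen] at h
  have h3 := sqrt3_sq
  rw [one_div, ← h, inv_inv]
  ring_nf
  rw [h3]
  ring

lemma int_sf : ∫ θ in (-π)..π, sf θ = 89 / 10 - 76 * √3 / 15 := by
  have hpi := pi_pos
  have hi : ∀ a b : ℝ, IntervalIntegrable sf volume a b :=
    fun a b => sf_cont.intervalIntegrable a b
  have s1 : ∫ θ in (-π)..π, sf θ = 12 * ∫ θ in (-π / 12)..(-π / 12 + π / 6), sf θ := by
    have := sf_periodic.intervalIntegral_add_zsmul_eq 12 (-π) hi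
    rw [show -π + (12:ℤ) • (π / 6) = π by simp; ring, sf_periodic.intervalIntegral_add_eq (-π) (-π / 12)]
      at this
    rw [this]; simp
  have s2 : ∫ θ in (-π / 12)..(-π / 12 + π / 6), sf θ = 2 * ∫ θ in (0:ℝ)..(π / 12), sf θ := by
    rw [show -π / 12 + π / 6 = π / 12 by ring,
      ← intervalIntegral.integral_add_adjacent_intervals (hi (-π / 12) 0) (hi 0 (π / 12))]
    have : ∫ θ in (-π / 12)..0, sf θ = ∫ θ in (0:ℝ)..(π / 12), sf θ := by
      have h := intervalIntegral.integral_comp_neg (a := 0) (b := π / 12) sf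
      rw [neg_zero, show -(π / 12) = -π / 12 by ring] at h
      rw [← h]
      simp only [sf_neg]
    rw [this]; ring
  have s3 : ∫ θ in (0:ℝ)..(π / 12), sf θ = Gp (π / 12) - Gp 0 := by
    have hcpos : ∀ x ∈ uIcc (0:ℝ) (π / 12), 0 < cos x := by
      intro x hx
      rw [uIcc_of_le (by linarith)] at hx
      exact cos_pos_of_mem_Ioo ⟨by linarith [hx.1], by linarith [hx.2]⟩
    rw [intervalIntegral.integral_congr
      (g := fun x => (1 / 20 - √3 / 60) * (1 / cos x ^ 4) - sin x / (60 * cos x ^ 5))]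
    · apply intervalIntegral.integral_eq_sub_of_hasDerivAt
      · intro x hx
        exact Gp_deriv (hcpos x hx).ne'
      · apply ContinuousOn.intervalIntegrable
        apply ContinuousOn.sub
        · apply ContinuousOn.mul continuousOn_const
          apply ContinuousOn.div continuousOn_const (by fun_prop)
          intro x hx
          exact pow_ne_zero _ (hcpos x hx).ne'
        · apply ContinuousOn.div (by fun_prop) (by fun_prop)
          intro x hx
          exact mul_ne_zero (by norm_num) (pow_ne_zero _ (hcpos x hx).ne')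
    · intro x hx
      rw [uIcc_of_le (by linarith)] at hx
      exact sf_eq hx.1 hx.2
  rw [s1, s2, s3]
  unfold Gp
  rw [tan_fifteen, tan_zero, cos_zero]
  have e : 1 / (240 * cos (π / 12) ^ 4) = (8 - 4 * √3) ^ 2 / 240 := by
    rw [← cos_fifteen]
    have hc : cos (π / 12) ≠ 0 := (cos_pos_of_mem_Ioo ⟨by linarith, by linarith⟩).ne'
    field_simp
  rw [e]
  have h := sqrt3_sq
  have h3 : (√3 : ℝ) ^ 3 = 3 * √3 := by rw [pow_succ, h]
  have h4 : (√3 : ℝ) ^ 4 = 9 := by rw [show (4:ℕ) = 2 * 2 by norm_num, pow_mul, h]; norm_num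
  ring_nf
  rw [h4, h3, h]
  ring

end Pool.Agent.Hall
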