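import Pool.Agent.Hall.Cov
import Pool.Agent.Hall.Trig2

/-!
# Triangles in the unit square
-/

set_option autoImplicit false

namespace Pool.Agent.Hall

open MeasureTheory Real Set Filter Topology
open scoped ENNReal

/-- the triples of points of `S` such that all angles are at most `φ` -/
def E (φ : ℝ) (S : Set ℂ) : Set (ℂ × ℂ × ℂ) :=
  {p | p.1 ∈ S ∧ p.2.1 ∈ S ∧ p.2.2 ∈ S ∧ Ang φ p.1 p.2.1 p.2.2}

lemma ang_meas (φ : ℝ) : MeasurableSet {p : ℂ × ℂ × ℂ | Ang φ p.1 p.2.1 p.2.2} := by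
  unfold Ang
  apply MeasurableSet.inter
  · exact measurableSet_le (meas_angle (by fun_prop) (by fun_prop)) measurable_const
  apply MeasurableSet.inter
  · exact measurableSet_le (meas_angle (by fun_prop) (by fun_prop)) measurable_const
  · exact measurableSet_le (meas_angle (by fun_prop) (by fun_prop)) measurable_const

lemma E_meas (φ : ℝ) {S : Set ℂ} (hS : MeasurableSet S) : MeasurableSet (E φ S) := by
  unfold E
  refine (measurable_fst hS).inter (((measurable_fst.comp measurable_snd) hS).inter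
    (((measurable_snd.comp measurable_snd) hS).inter (ang_meas φ)))

lemma vol_iter {A : Set (ℂ × ℂ × ℂ)} (hA : MeasurableSet A) :
    volume A = ∫⁻ x, ∫⁻ y, ∫⁻ z, ind ((x, y, z) ∈ A) := by
  rw [← lintegral_ind _ hA, Measure.volume_eq_prod, lintegral_prod _ (ind_meas hA).aemeasurable]
  congr 1
  ext x
  have hm : Measurable fun q : ℂ × ℂ => ind ((x, q) ∈ A) :=
    (ind_meas hA).comp (measurable_const.prodMk measurable_id)
  rw [Measure.volume_eq_prod, lintegral_prod _ hm.aemeasurable]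

lemma ae_ne_zero : ∀ᵐ h : ℂ, h ≠ 0 := by
  have : (volume : Measure ℂ) {0} = 0 := measure_singleton 0
  exact compl_mem_ae_iff.2 this

/-- the density of shapes -/
noncomputable def Phi (S : Set ℂ) (w : ℂ) : ℝ≥0∞ :=
  ∫⁻ h, ENNReal.ofReal (‖h‖ ^ 2) * ∫⁻ x, ind (x ∈ S ∧ x + h ∈ S ∧ x + h * w ∈ S)

lemma tri_meas {S : Set ℂ} (hS : MeasurableSet S) :
    MeasurableSet {p : ℂ × ℂ × ℂ | p.1 ∈ S ∧ p.1 + p.2.1 ∈ S ∧ p.1 + p.2.1 * p.2.2 ∈ S} := by
  refine (measurable_fst hS).inter (MeasurableSet.inter ?_ ?_)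
  · exact (by fun_prop : Measurable fun p : ℂ × ℂ × ℂ => p.1 + p.2.1) hS
  · exact (by fun_prop : Measurable fun p : ℂ × ℂ × ℂ => p.1 + p.2.1 * p.2.2) hS

lemma vol_E (φ : ℝ) {S : Set ℂ} (hS : MeasurableSet S) :
    volume (E φ S) = ∫⁻ w, ind (w ∈ K φ) * Phi S w := by
  rw [vol_iter (E_meas φ hS)]
  have e1 : ∀ x : ℂ, ∫⁻ y, ∫⁻ z, ind ((x, y, z) ∈ E φ S) =
      ∫⁻ h, ∫⁻ w, ENNReal.ofReal (‖h‖ ^ 2) *
        (ind (w ∈ K φ) * ind (x ∈ S ∧ x + h ∈ S ∧ x + h * w ∈ S)) := by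
    intro x
    rw [← lintegral_add_left_eq_self _ x]
    apply lintegral_congr_ae
    filter_upwards [ae_ne_zero] with h hh
    rw [lint_mul x hh, lintegral_const_mul']
    · congr 1
      apply lintegral_congr
      intro w
      rw [← ind_and]
      apply ind_congr
      unfold E
      simp only [mem_ofPred_eq, ang_iff x w hh]
      tauto
    · exact ENNReal.ofReal_ne_top
  simp only [e1]
  have hF : Measurable (fun p : ℂ × ℂ × ℂ => ENNReal.ofReal (‖p.2.1‖ ^ 2) *
        (ind (p.2.2 ∈ K φ) * ind (p.1 ∈ S ∧ p.1 + p.2.1 ∈ S ∧ p.1 + p.2.1 * p.2.2 ∈ S))) := by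
    refine (by fun_prop : Measurable fun p : ℂ × ℂ × ℂ => ENNReal.ofReal (‖p.2.1‖ ^ 2)).mul
      (((ind_meas (K_meas φ)).comp (measurable_snd.comp measurable_snd)).mul
        (ind_meas (tri_meas hS)))
  rw [swap3 hF]
  apply lintegral_congr
  intro w
  simp only
  unfold Phi
  have hm : Measurable fun h : ℂ => ENNReal.ofReal (‖h‖ ^ 2) *
      ∫⁻ x, ind (x ∈ S ∧ x + h ∈ S ∧ x + h * w ∈ S) := by
    refine (by fun_prop : Measurable fun h : ℂ => ENNReal.ofReal (‖h‖ ^ 2)).mul ?_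
    have h1 : Measurable fun q : ℂ × ℂ => ind (q.2 ∈ S ∧ q.2 + q.1 ∈ S ∧ q.2 + q.1 * w ∈ S) :=
      (ind_meas (tri_meas hS)).comp
        (by fun_prop : Measurable fun q : ℂ × ℂ => ((q.2, q.1, w) : ℂ × ℂ × ℂ))
    exact h1.lintegral_prod_right'
  rw [← lintegral_const_mul _ hm]
  apply lintegral_congr
  intro h
  have hm2 : Measurable fun x : ℂ => ind (x ∈ S ∧ x + h ∈ S ∧ x + h * w ∈ S) :=
      (ind_meas (tri_meas hS)).comp
        (by fun_prop : Measurable fun x : ℂ => ((x, h, w) : ℂ × ℂ × ℂ))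
  rw [lintegral_const_mul _ (hm2.const_mul _), lintegral_const_mul _ hm2]
  ring

/-- the extent of `{0, a, b}` -/
noncomputable def ext (a b : ℝ) : ℝ := max |a| (max |b| |a - b|)

lemma ext_smul {r : ℝ} (hr : 0 < r) (a b : ℝ) : ext (r * a) (r * b) = r * ext a b := by
  unfold ext
  rw [← mul_sub, abs_mul, abs_mul, abs_mul, abs_of_pos hr, mul_max_of_nonneg _ _ hr.le,
    mul_max_of_nonneg _ _ hr.le]

lemma ext_add (a b c : ℝ) : ext a c ≤ ext a b + |c - b| := by
  unfold ext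
  refine max_le ?_ (max_le ?_ ?_)
  · have := le_max_left |a| (max |b| |a - b|)
    linarith [abs_nonneg (c - b)]
  · have h1 : |b| ≤ max |a| (max |b| |a - b|) := (le_max_left _ _).trans (le_max_right _ _)
    have h2 : |c| ≤ |b| + |c - b| := by
      have := abs_add_le b (c - b)
      rwa [add_sub_cancel] at this
    linarith
  · have h1 : |a - b| ≤ max |a| (max |b| |a - b|) := (le_max_right _ _).trans (le_max_right _ _)
    have h2 : |a - c| ≤ |a - b| + |c - b| := by
      have := abs_sub_le a b c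
      rwa [abs_sub_comm b c] at this
    linarith

lemma len_ge (a b : ℝ) : ENNReal.ofReal (1 - ext a b) ≤
    volume {t : ℝ | t ∈ Ioo (0:ℝ) 1 ∧ t + a ∈ Ioo (0:ℝ) 1 ∧ t + b ∈ Ioo (0:ℝ) 1} := by
  have hsub : Ioo (-min 0 (min a b)) (1 - max 0 (max a b)) ⊆
      {t : ℝ | t ∈ Ioo (0:ℝ) 1 ∧ t + a ∈ Ioo (0:ℝ) 1 ∧ t + b ∈ Ioo (0:ℝ) 1} := by
    intro t ht
    have h1 := ht.1
    have h2 := ht.2
    have m1 := min_le_left 0 (min a b)
    have m2 := (min_le_right 0 (min a b)).trans (min_le_left a b)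
    have m3 := (min_le_right 0 (min a b)).trans (min_le_right a b)
    have M1 := le_max_left 0 (max a b)
    have M2 := (le_max_left a b).trans (le_max_right 0 (max a b))
    have M3 := (le_max_right a b).trans (le_max_right 0 (max a b))
    refine ⟨⟨by linarith, by linarith⟩, ⟨by linarith, by linarith⟩, ⟨by linarith, by linarith⟩⟩
  refine le_trans ?_ (measure_mono hsub)
  rw [Real.volume_Ioo]
  apply ENNReal.ofReal_le_ofReal
  have e1 : |a| ≤ ext a b := le_max_left _ _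
  have e2 : |b| ≤ ext a b := (le_max_left _ _).trans (le_max_right _ _)
  have e3 : |a - b| ≤ ext a b := (le_max_right _ _).trans (le_max_right _ _)
  rw [abs_le] at e1 e2 e3
  have key : max 0 (max a b) - min 0 (min a b) ≤ ext a b := by
    simp only [min_def, max_def]
    split_ifs <;> linarith
  linarith

lemma rect_vol (A B : Set ℝ) : volume {x : ℂ | x.re ∈ A ∧ x.im ∈ B} = volume A * volume B := by
  have := Complex.volume_preserving_equiv_real_prod.measure_preimage_equiv (A ×ˢ B)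
  rw [Measure.volume_eq_prod, Measure.prod_prod] at this
  exact this

/-- the open unit square -/
def Q : Set ℂ := {z | z.re ∈ Ioo (0:ℝ) 1 ∧ z.im ∈ Ioo (0:ℝ) 1}

lemma Q_meas : MeasurableSet Q :=
  (Complex.measurable_re measurableSet_Ioo).inter (Complex.measurable_im measurableSet_Ioo)

lemma Q_vol : volume Q = 1 := by
  unfold Q
  rw [rect_vol]; simp

lemma inner_ge (h g : ℂ) : ENNReal.ofReal (1 - ext h.re g.re) * ENNReal.ofReal (1 - ext h.im g.im) ≤
    ∫⁻ x, ind (x ∈ Q ∧ x + h ∈ Q ∧ x + g ∈ Q) := by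
  have hm : MeasurableSet {x : ℂ | x ∈ Q ∧ x + h ∈ Q ∧ x + g ∈ Q} :=
    Q_meas.inter (((measurable_id.add_const h) Q_meas).inter ((measurable_id.add_const g) Q_meas))
  have := lintegral_ind volume hm
  simp only [mem_ofPred_eq] at this
  rw [this]
  refine (mul_le_mul' (len_ge h.re g.re) (len_ge h.im g.im)).trans ?_
  rw [← rect_vol]
  apply measure_mono
  intro x hx
  obtain ⟨⟨a1, a2, a3⟩, b1, b2, b3⟩ := hx
  refine ⟨⟨a1, b1⟩, ⟨?_, ?_⟩, ⟨?_, ?_⟩⟩
  · simpa using a2
  · simpa using b2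
  · simpa using a3
  · simpa using b3

end Pool.Agent.Hall
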