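import Pool.Agent.Hall.Sq

/-!
# Lower bound for the density of shapes in the square
-/

set_option autoImplicit false

namespace Pool.Agent.Hall

open MeasureTheory Real Set Filter Topology
open scoped ENNReal

lemma rad_ge {a b : ℝ} (ha : 0 < a) (_hb : 0 < b) : ENNReal.ofReal (qf a b) ≤
    ∫⁻ r in Ioi (0 : ℝ), ENNReal.ofReal r * (ENNReal.ofReal (r ^ 2) *
      (ENNReal.ofReal (1 - r * a) * ENNReal.ofReal (1 - r * b))) := by
  set M := max a b with hM
  have hM0 : 0 < M := lt_max_of_lt_left ha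
  have hint : ∫ r in (0:ℝ)..(1 / M), (r ^ 3 - (a + b) * r ^ 4 + a * b * r ^ 5) = qf a b := by
    rw [intervalIntegral.integral_add, intervalIntegral.integral_sub,
      intervalIntegral.integral_const_mul, intervalIntegral.integral_const_mul, integral_pow,
      integral_pow, integral_pow]
    · unfold qf
      rw [← hM]
      push_cast
      field_simp
      ring
    all_goals exact Continuous.intervalIntegrable (by fun_prop) _ _
  have hint2 : ∫ r in Ioc (0:ℝ) (1 / M), (r ^ 3 - (a + b) * r ^ 4 + a * b * r ^ 5) = qf a b := by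
    rw [← hint, intervalIntegral.integral_of_le (by positivity)]
  have hi : IntegrableOn (fun r : ℝ => r ^ 3 - (a + b) * r ^ 4 + a * b * r ^ 5)
      (Ioc (0:ℝ) (1 / M)) := by
    rw [← intervalIntegrable_iff_integrableOn_Ioc_of_le (by positivity)]
    exact Continuous.intervalIntegrable (by fun_prop) _ _
  rw [← hint2]
  refine (ofReal_int_le hi).trans ?_
  refine le_trans ?_ (lintegral_mono_set (Ioc_subset_Ioi_self : Ioc (0:ℝ) (1 / M) ⊆ Ioi 0))
  apply setLIntegral_mono_ae' measurableSet_Ioc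
  filter_upwards with r hr
  have hr0 : 0 < r := hr.1
  have hr1 : r * M ≤ 1 := by
    have := hr.2
    rwa [le_div_iff₀ hM0] at this
  have h1 : 0 ≤ 1 - r * a := by
    have : r * a ≤ r * M := mul_le_mul_of_nonneg_left (le_max_left _ _) hr0.le
    linarith
  have h2 : 0 ≤ 1 - r * b := by
    have : r * b ≤ r * M := mul_le_mul_of_nonneg_left (le_max_right _ _) hr0.le
    linarith
  rw [← ENNReal.ofReal_mul h1, ← ENNReal.ofReal_mul (by positivity),
    ← ENNReal.ofReal_mul hr0.le]
  apply ENNReal.ofReal_le_ofReal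
  apply le_of_eq
  ring

/-- the unit vector -/
noncomputable def e (θ : ℝ) : ℂ := cos θ + sin θ * Complex.I

lemma e_re (θ : ℝ) : (e θ).re = cos θ := by
  simp [e, -Complex.ofReal_cos, -Complex.ofReal_sin]
lemma e_im (θ : ℝ) : (e θ).im = sin θ := by
  simp [e, -Complex.ofReal_cos, -Complex.ofReal_sin]

lemma norm_e (θ : ℝ) : ‖e θ‖ = 1 := by
  rw [Complex.norm_def, Complex.normSq_apply, e_re, e_im]
  rw [show cos θ * cos θ + sin θ * sin θ = 1 by nlinarith [sin_sq_add_cos_sq θ]]
  simp

lemma e_w0_re (θ : ℝ) : (e θ * w0).re = cos (θ + π / 3) := by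
  rw [Complex.mul_re, e_re, e_im, cos_add, cos_pi_div_three, sin_pi_div_three]
  simp only [w0]

lemma e_w0_im (θ : ℝ) : (e θ * w0).im = sin (θ + π / 3) := by
  rw [Complex.mul_im, e_re, e_im, sin_add, cos_pi_div_three, sin_pi_div_three]
  simp only [w0]; ring

lemma e_w1_re (θ : ℝ) : (e θ * w1).re = cos (θ - π / 3) := by
  rw [Complex.mul_re, e_re, e_im, cos_sub, cos_pi_div_three, sin_pi_div_three]
  simp only [w1]; ring

lemma e_w1_im (θ : ℝ) : (e θ * w1).im = sin (θ - π / 3) := by
  rw [Complex.mul_im, e_re, e_im, sin_sub, cos_pi_div_three, sin_pi_div_three]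
  simp only [w1]; ring

lemma ext_w0_re (θ : ℝ) : ext (cos θ) ((e θ * w0).re) = Wd θ := by
  unfold ext Wd
  rw [e_w0_re]
  have : cos θ - cos (θ + π / 3) = cos (θ - π / 3) := by
    rw [cos_add, cos_sub, cos_pi_div_three, sin_pi_div_three]; ring
  rw [this]

lemma ext_w0_im (θ : ℝ) : ext (sin θ) ((e θ * w0).im) = Vd θ := by
  unfold ext Vd
  rw [e_w0_im]
  have : sin θ - sin (θ + π / 3) = sin (θ - π / 3) := by
    rw [sin_add, sin_sub, cos_pi_div_three, sin_pi_div_three]; ring
  rw [this]

lemma ext_w1_re (θ : ℝ) : ext (cos θ) ((e θ * w1).re) = Wd θ := by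
  unfold ext Wd
  rw [e_w1_re]
  have : cos θ - cos (θ - π / 3) = cos (θ + π / 3) := by
    rw [cos_add, cos_sub, cos_pi_div_three, sin_pi_div_three]; ring
  rw [this, max_comm |cos (θ - π / 3)|]

lemma ext_w1_im (θ : ℝ) : ext (sin θ) ((e θ * w1).im) = Vd θ := by
  unfold ext Vd
  rw [e_w1_im]
  have : sin θ - sin (θ - π / 3) = sin (θ + π / 3) := by
    rw [sin_add, sin_sub, cos_pi_div_three, sin_pi_div_three]; ring
  rw [this, max_comm |sin (θ - π / 3)|]

/-- abstract lower bound -/
lemma Phi_ge_aux {ε : ℝ} (hε : 0 ≤ ε) {w : ℂ}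
    (h1 : ∀ θ, ext (cos θ) ((e θ * w).re) ≤ Wd θ + ε)
    (h2 : ∀ θ, ext (sin θ) ((e θ * w).im) ≤ Vd θ + ε) :
    ENNReal.ofReal (((1 + 2 * ε) ^ 4)⁻¹ * (89 / 10 - 76 * √3 / 15)) ≤ Phi Q w := by
  set G : ℂ → ℝ≥0∞ := fun h => ENNReal.ofReal (‖h‖ ^ 2) *
    (ENNReal.ofReal (1 - ext h.re (h * w).re) * ENNReal.ofReal (1 - ext h.im (h * w).im)) with hG
  have hGm : Measurable G := by
    have hx : Measurable fun h : ℂ => ext h.re (h * w).re := by
      unfold ext; fun_prop
    have hy : Measurable fun h : ℂ => ext h.im (h * w).im := by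
      unfold ext; fun_prop
    exact (by fun_prop : Measurable fun h : ℂ => ENNReal.ofReal (‖h‖ ^ 2)).mul
      ((measurable_const.sub hx).ennreal_ofReal.mul (measurable_const.sub hy).ennreal_ofReal)
  have hPG : ∫⁻ h, G h ≤ Phi Q w := by
    unfold Phi
    apply lintegral_mono
    intro h
    exact mul_le_mul' le_rfl (inner_ge h (h * w))
  refine le_trans ?_ hPG
  rw [lint_polar G hGm]
  have hl : 0 < 1 + 2 * ε := by linarith
  calc ENNReal.ofReal (((1 + 2 * ε) ^ 4)⁻¹ * (89 / 10 - 76 * √3 / 15))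
      = ENNReal.ofReal (∫ θ in Ioo (-π) π, ((1 + 2 * ε) ^ 4)⁻¹ * sf θ) := by
        rw [← integral_Ioc_eq_integral_Ioo, ← intervalIntegral.integral_of_le (by linarith [pi_pos]),
          intervalIntegral.integral_const_mul, int_sf]
    _ ≤ ∫⁻ θ in Ioo (-π) π, ENNReal.ofReal (((1 + 2 * ε) ^ 4)⁻¹ * sf θ) := by
        apply ofReal_int_le
        exact (Continuous.integrableOn_Ioc (continuous_const.mul sf_cont)).mono_set
          Ioo_subset_Ioc_self
    _ ≤ _ := by
        apply lintegral_mono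
        intro θ
        simp only
        unfold sf
        rw [← qf_smul hl]
        refine (rad_ge (mul_pos hl (by linarith [Wd_ge θ])) (mul_pos hl (by linarith [Vd_ge θ]))).trans ?_
        apply setLIntegral_mono_ae' measurableSet_Ioi
        filter_upwards with r hr
        have hr0 : 0 < r := hr
        apply mul_le_mul' le_rfl
        have hre : ((r : ℂ) * (cos θ + sin θ * Complex.I)) = r * e θ := rfl
        rw [hre, hG]
        simp only
        have n1 : ‖(r : ℂ) * e θ‖ ^ 2 = r ^ 2 := by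
          rw [norm_mul, norm_e, mul_one, Complex.norm_real, norm_eq_abs, sq_abs]
        have r1 : ((r : ℂ) * e θ).re = r * cos θ := by
          rw [Complex.re_ofReal_mul, e_re]
        have r2 : ((r : ℂ) * e θ * w).re = r * (e θ * w).re := by
          rw [mul_assoc, Complex.re_ofReal_mul]
        have r3 : ((r : ℂ) * e θ).im = r * sin θ := by
          rw [Complex.im_ofReal_mul, e_im]
        have r4 : ((r : ℂ) * e θ * w).im = r * (e θ * w).im := by
          rw [mul_assoc, Complex.im_ofReal_mul]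
        rw [n1, r1, r2, r3, r4, ext_smul hr0, ext_smul hr0]
        apply mul_le_mul' le_rfl
        apply mul_le_mul'
        · apply ENNReal.ofReal_le_ofReal
          have : ext (cos θ) ((e θ * w).re) ≤ (1 + 2 * ε) * Wd θ := by
            have := h1 θ
            nlinarith [Wd_ge θ]
          have := mul_le_mul_of_nonneg_left this hr0.le
          linarith
        · apply ENNReal.ofReal_le_ofReal
          have : ext (sin θ) ((e θ * w).im) ≤ (1 + 2 * ε) * Vd θ := by
            have := h2 θ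
            nlinarith [Vd_ge θ]
          have := mul_le_mul_of_nonneg_left this hr0.le
          linarith

lemma Phi_ge {ε : ℝ} {w : ℂ} (h : ‖w - w0‖ < ε ∨ ‖w - w1‖ < ε) :
    ENNReal.ofReal (((1 + 2 * ε) ^ 4)⁻¹ * (89 / 10 - 76 * √3 / 15)) ≤ Phi Q w := by
  have hdiff : ∀ (θ : ℝ) (v : ℂ), ‖w - v‖ < ε → |(e θ * w).re - (e θ * v).re| ≤ ε ∧
      |(e θ * w).im - (e θ * v).im| ≤ ε := by
    intro θ v hv
    have hn : ‖e θ * (w - v)‖ ≤ ε := by
      rw [norm_mul, norm_e, one_mul]; exact hv.le
    constructor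
    · rw [← Complex.sub_re, ← mul_sub]
      exact (Complex.abs_re_le_norm _).trans hn
    · rw [← Complex.sub_im, ← mul_sub]
      exact (Complex.abs_im_le_norm _).trans hn
  rcases h with h | h
  · have hε : 0 ≤ ε := (norm_nonneg _).trans h.le
    apply Phi_ge_aux hε
    · intro θ
      rw [← ext_w0_re θ]
      linarith [ext_add (cos θ) ((e θ * w0).re) ((e θ * w).re), (hdiff θ w0 h).1]
    · intro θ
      rw [← ext_w0_im θ]
      linarith [ext_add (sin θ) ((e θ * w0).im) ((e θ * w).im), (hdiff θ w0 h).2]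
  · have hε : 0 ≤ ε := (norm_nonneg _).trans h.le
    apply Phi_ge_aux hε
    · intro θ
      rw [← ext_w1_re θ]
      linarith [ext_add (cos θ) ((e θ * w1).re) ((e θ * w).re), (hdiff θ w1 h).1]
    · intro θ
      rw [← ext_w1_im θ]
      linarith [ext_add (sin θ) ((e θ * w1).im) ((e θ * w).im), (hdiff θ w1 h).2]

end Pool.Agent.Hall
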