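import Mathlib

/-!
# Two trigonometric integrals
-/

set_option autoImplicit false

namespace Pool.Agent.Hall

open MeasureTheory Real Set

/-- primitive of `cos ^ 4` -/
noncomputable def F4 (x : ℝ) : ℝ := cos x ^ 3 * sin x / 4 + 3 / 8 * (x + sin x * cos x)

lemma F4_deriv (x : ℝ) : HasDerivAt F4 (cos x ^ 4) x := by
  have h1 := (((hasDerivAt_cos x).pow 3).mul (hasDerivAt_sin x)).div_const 4
  have h2 := ((hasDerivAt_id x).add ((hasDerivAt_sin x).mul (hasDerivAt_cos x))).const_mul (3 / 8)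
  have h3 := h1.add h2
  refine (h3.congr_deriv ?_).congr_of_eventuallyEq ?_
  · have hs := sin_sq_add_cos_sq x
    simp only [Pi.pow_apply]
    have e : sin x ^ 2 = 1 - cos x ^ 2 := by linarith
    push_cast
    ring_nf
    rw [e]
    ring
  · filter_upwards with y
    simp [F4]

lemma int_cos4 (a b : ℝ) : ∫ x in a..b, cos x ^ 4 = F4 b - F4 a :=
  intervalIntegral.integral_eq_sub_of_hasDerivAt (fun x _ => F4_deriv x)
    ((continuous_cos.pow 4).intervalIntegrable _ _)

lemma cos_five : cos (5 * π / 6) = -(√3 / 2) := by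
  rw [show 5 * π / 6 = π - π / 6 by ring, cos_pi_sub, cos_pi_div_six]

lemma sin_five : sin (5 * π / 6) = 1 / 2 := by
  rw [show 5 * π / 6 = π - π / 6 by ring, sin_pi_sub, sin_pi_div_six]

lemma sqrt3_sq : (√3 : ℝ) ^ 2 = 3 := sq_sqrt (by norm_num)

lemma F4_five : F4 (5 * π / 6) = 5 * π / 16 - 9 * √3 / 64 := by
  unfold F4
  rw [cos_five, sin_five]
  have h := sqrt3_sq
  have h3 : (√3 : ℝ) ^ 3 = 3 * √3 := by rw [pow_succ, h]
  ring_nf
  rw [h3]
  ring

lemma F4_half : F4 (π / 2) = 3 * π / 16 := by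
  unfold F4
  rw [cos_pi_div_two]
  ring

lemma F4_seven : F4 (7 * π / 6) = 7 * π / 16 + 9 * √3 / 64 := by
  unfold F4
  rw [show 7 * π / 6 = π / 6 + π by ring, cos_add_pi, sin_add_pi, cos_pi_div_six, sin_pi_div_six]
  have h := sqrt3_sq
  have h3 : (√3 : ℝ) ^ 3 = 3 * √3 := by rw [pow_succ, h]
  ring_nf
  rw [h3]
  ring

lemma F4_three : F4 (3 * π / 2) = 9 * π / 16 := by
  unfold F4
  rw [show 3 * π / 2 = π / 2 + π by ring, cos_add_pi, sin_add_pi, cos_pi_div_two]
  ring

/-- the radial function for the disk -/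
noncomputable def dk (θ : ℝ) : ℝ := max 0 (min (-cos θ) (-cos (θ + π / 3)))

lemma dk_cont : Continuous dk := by unfold dk; fun_prop

lemma dk_nonneg (θ : ℝ) : 0 ≤ dk θ := le_max_left _ _

lemma dk_le_one (θ : ℝ) : dk θ ≤ 1 := by
  unfold dk
  refine max_le (by norm_num) ((min_le_left _ _).trans ?_)
  linarith [neg_one_le_cos θ]

lemma dk_periodic : Function.Periodic dk (2 * π) := by
  intro θ
  unfold dk
  rw [cos_add_two_pi, show θ + 2 * π + π / 3 = (θ + π / 3) + 2 * π by ring, cos_add_two_pi]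

lemma int_dk : ∫ θ in (-π)..π, dk θ ^ 4 ≤ π / 4 - 9 * √3 / 32 := by
  have hp : Function.Periodic (fun θ => dk θ ^ 4) (2 * π) := by
    intro θ; simp only [dk_periodic θ]
  have hc : Continuous (fun θ => dk θ ^ 4) := dk_cont.pow 4
  have h0 : ∫ θ in (-π)..π, dk θ ^ 4 = ∫ θ in (0:ℝ)..(2 * π), dk θ ^ 4 := by
    have := hp.intervalIntegral_add_eq (-π) 0
    rw [show -π + 2 * π = π by ring, zero_add] at this
    exact this
  have hi : ∀ a b : ℝ, IntervalIntegrable (fun θ => dk θ ^ 4) volume a b :=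
    fun a b => hc.intervalIntegrable a b
  have hpi := pi_pos
  have s1 : ∫ θ in (0:ℝ)..(2 * π), dk θ ^ 4 = (∫ θ in (0:ℝ)..(π / 2), dk θ ^ 4) +
      (∫ θ in (π / 2)..(5 * π / 6), dk θ ^ 4) + (∫ θ in (5 * π / 6)..(7 * π / 6), dk θ ^ 4) +
      (∫ θ in (7 * π / 6)..(2 * π), dk θ ^ 4) := by
    rw [intervalIntegral.integral_add_adjacent_intervals (hi _ _) (hi _ _),
      intervalIntegral.integral_add_adjacent_intervals (hi _ _) (hi _ _),
      intervalIntegral.integral_add_adjacent_intervals (hi _ _) (hi _ _)]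
  have e1 : ∫ θ in (0:ℝ)..(π / 2), dk θ ^ 4 = 0 := by
    rw [intervalIntegral.integral_congr (g := fun _ => (0 : ℝ))]
    · simp
    · intro θ hθ
      rw [uIcc_of_le (by linarith)] at hθ
      have : 0 ≤ cos θ := cos_nonneg_of_mem_Icc ⟨by linarith [hθ.1], hθ.2⟩
      have h : dk θ = 0 := by
        unfold dk
        exact max_eq_left ((min_le_left _ _).trans (by linarith))
      simp [h]
  have e4 : ∫ θ in (7 * π / 6)..(2 * π), dk θ ^ 4 = 0 := by
    rw [intervalIntegral.integral_congr (g := fun _ => (0 : ℝ))]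
    · simp
    · intro θ hθ
      rw [uIcc_of_le (by linarith)] at hθ
      have : 0 ≤ cos (θ + π / 3) := by
        rw [← cos_sub_two_pi]
        exact cos_nonneg_of_mem_Icc ⟨by linarith [hθ.1], by linarith [hθ.2]⟩
      have h : dk θ = 0 := by
        unfold dk
        exact max_eq_left ((min_le_right _ _).trans (by linarith))
      simp [h]
  have e2 : ∫ θ in (π / 2)..(5 * π / 6), dk θ ^ 4 ≤ π / 8 - 9 * √3 / 64 := by
    calc ∫ θ in (π / 2)..(5 * π / 6), dk θ ^ 4 ≤ ∫ θ in (π / 2)..(5 * π / 6), cos θ ^ 4 := by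
          apply intervalIntegral.integral_mono_on (by linarith) (hi _ _)
            ((continuous_cos.pow 4).intervalIntegrable _ _)
          intro θ hθ
          have hc0 : cos θ ≤ 0 := cos_nonpos_of_pi_div_two_le_of_le hθ.1 (by linarith [hθ.2])
          have : dk θ ≤ -cos θ := max_le (by linarith) (min_le_left _ _)
          calc dk θ ^ 4 ≤ (-cos θ) ^ 4 := pow_le_pow_left₀ (dk_nonneg θ) this 4
            _ = cos θ ^ 4 := by ring
      _ = π / 8 - 9 * √3 / 64 := by
          rw [int_cos4, F4_five, F4_half]; ring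
  have e3 : ∫ θ in (5 * π / 6)..(7 * π / 6), dk θ ^ 4 ≤ π / 8 - 9 * √3 / 64 := by
    calc ∫ θ in (5 * π / 6)..(7 * π / 6), dk θ ^ 4
        ≤ ∫ θ in (5 * π / 6)..(7 * π / 6), cos (θ + π / 3) ^ 4 := by
          apply intervalIntegral.integral_mono_on (by linarith) (hi _ _)
            ((Continuous.pow (by fun_prop) 4).intervalIntegrable _ _)
          intro θ hθ
          have hc0 : cos (θ + π / 3) ≤ 0 :=
            cos_nonpos_of_pi_div_two_le_of_le (by linarith [hθ.1]) (by linarith [hθ.2])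
          have : dk θ ≤ -cos (θ + π / 3) := max_le (by linarith) (min_le_right _ _)
          calc dk θ ^ 4 ≤ (-cos (θ + π / 3)) ^ 4 := pow_le_pow_left₀ (dk_nonneg θ) this 4
            _ = cos (θ + π / 3) ^ 4 := by ring
      _ = π / 8 - 9 * √3 / 64 := by
          rw [intervalIntegral.integral_comp_add_right (fun x => cos x ^ 4), int_cos4,
            show 7 * π / 6 + π / 3 = 3 * π / 2 by ring,
            show 5 * π / 6 + π / 3 = 7 * π / 6 by ring, F4_three, F4_seven]
          ring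
  rw [h0, s1, e1, e4]
  linarith

end Pool.Agent.Hall
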